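import Pool.Agent.Helper75.T5.Sink

/-!
# T5b: estimate (5) with a restricted set of candidates

`est5g` is `Pool.Agent.Helper75.T5.est5` where the pair of windows of a label must lie in a given
set `G` and both codes are divisible by their fronts.  The number of candidates is bounded in two
ways: `candG_card` (the family `f` is known on the side with the smaller front) and `candG_card'`
(on the side with the larger front).
-/

set_option autoImplicit false

namespace Pool.Agent.Helper1.T5b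

open Finset Pool.Agent.Helper27.T4 Pool.Agent.Helper29.T4 Pool.Agent.Helper22.HW
  Pool.Agent.Helper42.T5.Pr Pool.Agent.Helper75.T5

variable {ι : Type*} [Fintype ι] [DecidableEq ι] {p : ι → ℕ} {κ ω : Type*} {γ : Type*}

open Classical in
/-- candidates whose pair of windows is in `G` and whose second code is divisible by the front -/
noncomputable def candG (S S' : OSide p κ ω) (I : Finset γ) (X : γ → ℕ) (Y Y' : Finset (ι → ℕ))
    (U U' : Finset ℕ) (f : ι) (v : γ → (ι → ℕ) → ℕ) (G : Finset (γ × (ℕ × ℕ))) :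
    Finset (Cnd ι γ) :=
  (candSet S S' I X Y Y' U U' f v).filter (fun t => (t.1, t.2.2.1) ∈ G ∧
    S'.F ∣ X t.1 - (t.2.2.1.1 + t.2.2.1.2) - t.2.2.2)

theorem mem_candG {S S' : OSide p κ ω} {I : Finset γ} {X : γ → ℕ} {Y Y' : Finset (ι → ℕ)}
    {U U' : Finset ℕ} {f : ι} {v : γ → (ι → ℕ) → ℕ} {G : Finset (γ × (ℕ × ℕ))} {t : Cnd ι γ} :
    t ∈ candG S S' I X Y Y' U U' f v G ↔ t ∈ candSet S S' I X Y Y' U U' f v ∧
      (t.1, t.2.2.1) ∈ G ∧ S'.F ∣ X t.1 - (t.2.2.1.1 + t.2.2.1.2) - t.2.2.2 := by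
  classical
  unfold candG
  rw [mem_filter]

/-- a class modulo `F * q` cut with an interval, second form -/
theorem card_class_le' {A F q T : ℕ} (hco : F.Coprime q) (G : Finset ℕ)
    (hG : ∀ r ∈ G, F ∣ r ∧ r ≤ T ∧ T - r < A) (b : ZMod q)
    (hb : ∀ r ∈ G, ((r : ℕ) : ZMod q) = b) : G.card ≤ A / (F * q) + 1 := by
  refine card_class_le hco G hG ((T : ZMod q) - b) (fun r hr => ?_)
  rw [Nat.cast_sub (hG r hr).2.1, hb r hr]

/-- counting the candidates through the last entry -/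
theorem cand_card_of {G : Finset (γ × (ℕ × ℕ))} {Y Y' : Finset (ι → ℕ)} (C : Finset (Cnd ι γ))
    {R : ℕ} (h1 : ∀ t ∈ C, (t.1, t.2.2.1) ∈ G ∧ t.2.1.1 ∈ Y ∧ t.2.1.2 ∈ Y')
    (h2 : ∀ (g : γ) (y y' : ι → ℕ) (u : ℕ × ℕ) (D : Finset ℕ),
      (∀ r ∈ D, ((g, ((y, y'), (u, r))) : Cnd ι γ) ∈ C) → D.card ≤ R) :
    C.card ≤ (G.card * (Y.card * Y'.card)) * R := by
  classical
  have h3 : (G ×ˢ (Y ×ˢ Y')).card = G.card * (Y.card * Y'.card) := by
    rw [card_product, card_product]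
  rw [← h3, mul_comm]
  refine Finset.card_le_mul_card_image_of_maps_to
    (f := fun t : Cnd ι γ => ((t.1, t.2.2.1), t.2.1)) ?_ _ ?_
  · intro t ht
    obtain ⟨a, b, c⟩ := h1 t ht
    exact mem_product.2 ⟨a, mem_product.2 ⟨b, c⟩⟩
  · rintro ⟨⟨g, u⟩, ⟨y, y'⟩⟩ _
    refine le_trans ?_ (h2 g y y' u ((C.filter
      (fun t : Cnd ι γ => ((t.1, t.2.2.1), t.2.1) = ((g, u), (y, y')))).image
        (fun t => t.2.2.2)) ?_)
    · rw [Finset.card_image_of_injOn]
      rintro ⟨g1, ⟨⟨y1, y1'⟩, ⟨u1, r1⟩⟩⟩ k1 ⟨g2, ⟨⟨y2, y2'⟩, ⟨u2, r2⟩⟩⟩ k2 k12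
      have e1 := (mem_filter.1 (mem_coe.1 k1)).2
      have e2 := (mem_filter.1 (mem_coe.1 k2)).2
      simp only [Prod.mk.injEq] at e1 e2 k12 ⊢
      obtain ⟨⟨a1, a2⟩, a3, a4⟩ := e1
      obtain ⟨⟨b1, b2⟩, b3, b4⟩ := e2
      subst a1 a2 a3 a4
      exact ⟨b1.symm, ⟨b3.symm, b4.symm⟩, b2.symm, k12⟩
    · intro r hr
      obtain ⟨t, ht, rfl⟩ := mem_image.1 hr
      obtain ⟨k1, k2⟩ := mem_filter.1 ht
      obtain ⟨g1, ⟨⟨y1, y1'⟩, ⟨u1, r1⟩⟩⟩ := t
      simp only [Prod.mk.injEq] at k2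
      obtain ⟨⟨a1, a2⟩, a3, a4⟩ := k2
      subst a1 a2 a3 a4
      exact k1

/-- number of candidates, the family `f` is known on the side of the smaller front -/
theorem candG_card (S S' : OSide p κ ω) (I : Finset γ) (X : γ → ℕ)
    (Y Y' : Finset (ι → ℕ)) (U U' : Finset ℕ) (f : ι) (v : γ → (ι → ℕ) → ℕ)
    (G : Finset (γ × (ℕ × ℕ))) (hco : S.F.Coprime (p f)) :
    (candG S S' I X Y Y' U U' f v G).card ≤
      (G.card * (Y.card * Y'.card)) * (S'.F * NN p S'.e / (S.F * p f ^ S'.e f) + 1) := by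
  classical
  refine cand_card_of _ (fun t ht => ?_) (fun g y y' u D hD => ?_)
  · obtain ⟨k1, k2, -⟩ := mem_candG.1 ht
    rw [candSet, mem_filter] at k1
    simp only [mem_product] at k1
    exact ⟨k2, k1.1.2.1.1, k1.1.2.1.2⟩
  · have hco' : S.F.Coprime (p f ^ S'.e f) := Nat.Coprime.pow_right _ hco
    refine card_class_le (A := S'.F * NN p S'.e) (F := S.F) (q := p f ^ S'.e f)
      (T := X g - (u.1 + u.2)) hco' D ?_
      (Lg (p f) (S'.e f) (y' f) + ((v g y' : ℕ) : ZMod (p f ^ S'.e f))) ?_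
    · intro r hr
      obtain ⟨k1, -, -⟩ := mem_candG.1 (hD r hr)
      rw [candSet, mem_filter] at k1
      obtain ⟨-, c1, c2, c3, -⟩ := k1
      exact ⟨c1, c2, c3⟩
    · intro r hr
      obtain ⟨k1, -, -⟩ := mem_candG.1 (hD r hr)
      rw [candSet, mem_filter] at k1
      obtain ⟨-, -, -, -, c4⟩ := k1
      exact c4

/-- number of candidates, the family `f` is known on the side of the larger front -/
theorem candG_card' (S S' : OSide p κ ω) (I : Finset γ) (X : γ → ℕ)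
    (Y Y' : Finset (ι → ℕ)) (U U' : Finset ℕ) (f : ι) (v : γ → (ι → ℕ) → ℕ)
    (G : Finset (γ × (ℕ × ℕ))) (hco : S.F.Coprime (p f)) :
    (candG S' S I X Y' Y U' U f v G).card ≤
      (G.card * (Y'.card * Y.card)) * (S'.F * NN p S'.e / (S.F * p f ^ S.e f) + 1) := by
  classical
  refine cand_card_of _ (fun t ht => ?_) (fun g y y' u D hD => ?_)
  · obtain ⟨k1, k2, -⟩ := mem_candG.1 ht
    rw [candSet, mem_filter] at k1
    simp only [mem_product] at k1
    exact ⟨k2, k1.1.2.1.1, k1.1.2.1.2⟩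
  · have hco' : S.F.Coprime (p f ^ S.e f) := Nat.Coprime.pow_right _ hco
    have hD' : ∀ r ∈ D, r < S'.F * NN p S'.e ∧ r ≤ X g - (u.1 + u.2) ∧
        S.F ∣ X g - (u.1 + u.2) - r ∧
        ((X g - (u.1 + u.2) - r : ℕ) : ZMod (p f ^ S.e f)) =
          Lg (p f) (S.e f) (y' f) + ((v g y' : ℕ) : ZMod (p f ^ S.e f)) := by
      intro r hr
      obtain ⟨k1, -, k3⟩ := mem_candG.1 (hD r hr)
      rw [candSet, mem_filter] at k1
      obtain ⟨k4, -, c2, -, c4⟩ := k1
      simp only [mem_product, mem_range] at k4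
      exact ⟨k4.2.2.2, c2, k3, c4⟩
    rw [← Finset.card_image_of_injOn (f := fun r => X g - (u.1 + u.2) - r) (s := D)]
    · refine card_class_le' (A := S'.F * NN p S'.e) (F := S.F) (q := p f ^ S.e f)
        (T := X g - (u.1 + u.2)) hco' _ ?_
        (Lg (p f) (S.e f) (y' f) + ((v g y' : ℕ) : ZMod (p f ^ S.e f))) ?_
      · intro s hs
        obtain ⟨r, hr, rfl⟩ := mem_image.1 hs
        obtain ⟨a1, a2, a3, -⟩ := hD' r hr
        exact ⟨a3, Nat.sub_le _ _, by omega⟩
      · intro s hs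
        obtain ⟨r, hr, rfl⟩ := mem_image.1 hs
        exact (hD' r hr).2.2.2
    · intro r hr s hs hrs
      have e1 := (hD' r (mem_coe.1 hr)).2.1
      have e2 := (hD' s (mem_coe.1 hs)).2.1
      simp only at hrs
      omega

variable [DecidableEq κ]

open Classical in
/-- **Estimate (5), restricted candidates.** -/
theorem est5g (hp : ∀ i, (p i).Prime) (hinj : Function.Injective p) {S S' : OSide p κ ω}
    {rk : ι → ℕ} {Mk : κ → ℕ} (hS : S.Ok rk Mk) (hS' : S'.Ok rk Mk)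
    (hdisj : ∀ o i y o' i' y', S.key o i y ≠ S'.key o' i' y') (hMk : ∀ k, 0 < Mk k)
    (f : ι) (hf : ∀ i, i ≠ f → rk f < rk i) (hef : S'.e f = S.e f)
    (K : Finset κ) (I : Finset γ) (X : γ → ℕ) (o o' : γ → ω) (Y Y' : Finset (ι → ℕ))
    (U U' : Finset ℕ) (hU : ∀ u ∈ U, p f ^ S.e f ∣ u) (hU' : ∀ u ∈ U', p f ^ S.e f ∣ u)
    (hK : ∀ g ∈ I, ∀ y ∈ Y, ∀ i, S.key (o g) i y ∈ K)
    (hK' : ∀ g ∈ I, ∀ y ∈ Y', ∀ i, S'.key (o' g) i y ∈ K)
    (G : Finset (γ × (ℕ × ℕ)))
    (hG : ∀ g ∈ I, ∀ u ∈ U, ∀ u' ∈ U', ∀ c c', S.F ∣ c → c < S.F * NN p S.e → S'.F ∣ c' →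
      c' < S'.F * NN p S'.e → c + c' + (u + u') = X g → (g, (u, u')) ∈ G)
    {NA : ℕ} (hNA : ∀ v, (candG S S' I X Y Y' U U' f v G).card ≤ NA)
    (QA QB : ℝ) (hQA0 : 0 ≤ QA) (hQB0 : 0 ≤ QB)
    (hQA : (NA : ℝ) ≤ QA * ((NN p S.e : ℝ) * (MM p S'.e (univ.erase f) : ℝ)))
    (hQB : (I.card : ℝ) * (Y.image (fun y => y f)).card ≤ QB * (p f ^ S.e f : ℕ)) (m1 m2 : ℕ) :
    PrLe Mk K (fun w => ∃ T ⊆ I, m1 * m2 < T.card ∧ Set.InjOn o T ∧
        ∀ g ∈ T, LHit hp hinj S S' X o o' Y Y' U U' w g)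
      ((NA : ℝ) * QA ^ m1 +
      ((I.image o').card * (Y'.image (fun y => y f)).card : ℕ) *
        ((I.card * (Y.image (fun y => y f)).card : ℕ) * QB ^ m2)) := by
  classical
  set Y0 := Y.image (fun y => y f) with hY0
  set Y0' := Y'.image (fun y => y f) with hY0'
  have hrk : ∀ i, rk f ≤ rk i := fun i => by
    by_cases h : i = f
    · rw [h]
    · exact (hf i h).le
  -- the keys of rank zero on the side of `a'`
  set K0 := K.filter (fun k => ∃ o₁, kf S' f o₁ = k) with hK0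
  have hK0K : K0 ⊆ K := filter_subset _ _
  refine PrLe_cond hK0K (by positivity) (fun r0 hr0 => ?_)
  set Φ : (κ → ℕ) → κ → ℕ := fun w => glue K0 (ext K0 r0) w with hΦd
  have hΦ : ∀ r ∈ OmK Mk (K \ K0), ∀ k ∈ K \ K0, Φ (ext (K \ K0) r) k = ext (K \ K0) r k := by
    intro r _ k hk
    exact glue_not_mem _ _ _ (mem_sdiff.1 hk).2
  set v : γ → (ι → ℕ) → ℕ := fun g _ => ext K0 r0 (kf S' f (o' g)) with hv
  set CC := candG S S' I X Y Y' U U' f v G with hCC
  have hcard : (CC.card : ℝ) ≤ (NA : ℝ) := by exact_mod_cast hNA v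
  -- part A
  have hCK : ∀ t ∈ CC, fkc S S' o o' f t ⊆ K \ K0 := by
    intro t ht k hk
    replace ht := (mem_candG.1 ht).1
    rw [candSet, mem_filter] at ht
    simp only [mem_product] at ht
    obtain ⟨⟨hg, ⟨hy, hy'⟩, -⟩, -⟩ := ht
    rw [fkc, mem_union, Side.fk, Side.fk, mem_image, mem_image] at hk
    rw [mem_sdiff, hK0, mem_filter]
    rcases hk with ⟨i, -, rfl⟩ | ⟨i, hi, rfl⟩
    · refine ⟨hK t.1 hg _ hy i, ?_⟩
      rintro ⟨-, o₁, ho⟩
      exact hdisj _ _ _ _ _ _ ho.symm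
    · refine ⟨hK' t.1 hg _ hy' i, ?_⟩
      rintro ⟨-, o₁, ho⟩
      have hoo := hS'.outer _ _ _ _ _ _ ho
      subst hoo
      exact (Finset.ne_of_mem_erase hi) (((hS'.ok (o' t.1)).inj _ _ _ _ ho).1).symm
  have hA := prle_cands hp hinj hS hS' hdisj hMk (K \ K0) Φ hΦ X o o' f CC hCK QA
    (hcard.trans hQA) m1
  -- part B
  have hB : ∀ q ∈ (I.image o') ×ˢ Y0', PrLe Mk (K \ K0) (fun w => ∃ T ⊆ I ×ˢ Y0, T.card = m2 + 1 ∧
      (∀ t ∈ T, (Lg (p f) (S.e f) t.2).val + (Φ w) (kf S f (o t.1)) +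
        ((Lg (p f) (S'.e f) q.2).val + ext K0 r0 (kf S' f q.1)) ≡ X t.1 [MOD p f ^ S.e f]) ∧
      (∀ t ∈ T, ∀ t' ∈ T, t ≠ t' → o t.1 ≠ o t'.1))
      ((I.card * Y0.card : ℕ) * QB ^ m2) := by
    intro q _
    rcases Y.eq_empty_or_nonempty with hYe | ⟨yy, hyy⟩
    · refine PrLe_false ?_ (by positivity)
      rintro r - ⟨T, hT, hTc, -⟩
      rw [hY0, hYe, image_empty, product_empty, subset_empty] at hT
      rw [hT, card_empty] at hTc
      omega
    · refine prle_star hp hS hMk (K \ K0) Φ hΦ X o f I Y0 _ ?_ QB hQB m2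
      intro g hg
      rw [mem_sdiff, hK0, mem_filter]
      refine ⟨?_, ?_⟩
      · have := hK g hg yy hyy f
        rwa [kf_eq hS hrk] at this
      · rintro ⟨-, o₁, ho⟩
        exact hdisj _ _ _ _ _ _ ho.symm
  have hB' := PrLe_exists ((I.image o') ×ˢ Y0') hB
  rw [Finset.sum_const, nsmul_eq_mul, card_product] at hB'
  refine PrLe_mono ?_ ?_ (PrLe_or hA hB')
  · -- the deterministic part
    rintro r hr ⟨T, hTI, hTc, hinjo, hhit⟩
    change ∀ g ∈ T, LHit hp hinj S S' X o o' Y Y' U U' (Φ (ext (K \ K0) r)) g at hhit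
    set w := Φ (ext (K \ K0) r) with hw
    choose! y hy y' hy' u hu u' hu' hsum using hhit
    have hwK0 : ∀ g ∈ I, ∀ z ∈ Y', w (kf S' f (o' g)) = ext K0 r0 (kf S' f (o' g)) := by
      intro g hg z hz
      refine glue_mem _ _ _ ?_
      rw [hK0, mem_filter]
      refine ⟨?_, o' g, rfl⟩
      have := hK' g hg z hz f
      rwa [kf_eq hS' hrk] at this
    rcases pigeon T (fun g => (o' g, y' g f)) m1 m2 hTc with ⟨T1, hT1, hc1, hi1⟩ |
      ⟨q, hq, T2, hT2, hc2, hq2⟩
    · left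
      refine ⟨T1.image (fun g => (g, ((y g, y' g), ((u g, u' g), S.cd hp hinj w (o g) (y g))))),
        ?_, ?_, ?_, ?_⟩
      · intro t ht
        rw [mem_image] at ht
        obtain ⟨g, hg, rfl⟩ := ht
        have hgT := hT1 hg
        have hgI := hTI hgT
        have hs := hsum g hgT
        have hlt1 : S.cd hp hinj w (o g) (y g) < S.F * NN p S.e :=
          fc_lt hp hinj S.F (hS.ok (o g)).pos S.e _
        have hlt2 : S'.cd hp hinj w (o' g) (y' g) < S'.F * NN p S'.e :=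
          fc_lt hp hinj S'.F (hS'.ok (o' g)).pos S'.e _
        have hdv : S.F ∣ S.cd hp hinj w (o g) (y g) := dvd_fc hp hinj S.F S.e _
        have hdv' : S'.F ∣ S'.cd hp hinj w (o' g) (y' g) := dvd_fc hp hinj S'.F S'.e _
        have hsub : X g - (u g + u' g) - S.cd hp hinj w (o g) (y g)
            = S'.cd hp hinj w (o' g) (y' g) := by omega
        rw [mem_candG]
        refine ⟨?_, hG g hgI _ (hu g hgT) _ (hu' g hgT) _ _ hdv hlt1 hdv' hlt2 hs, ?_⟩
        · rw [candSet, mem_filter]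
          refine ⟨?_, hdv, ?_, ?_, ?_⟩
          · simp only [mem_product, mem_range]
            exact ⟨hgI, ⟨hy g hgT, hy' g hgT⟩, ⟨hu g hgT, hu' g hgT⟩, hlt1⟩
          · change S.cd hp hinj w (o g) (y g) ≤ X g - (u g + u' g)
            omega
          · change X g - (u g + u' g) - S.cd hp hinj w (o g) (y g) < _
            rw [hsub]
            exact hlt2
          · change ((X g - (u g + u' g) - S.cd hp hinj w (o g) (y g) : ℕ) :
              ZMod (p f ^ S'.e f)) = Lg (p f) (S'.e f) (y' g f) +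
                ((ext K0 r0 (kf S' f (o' g)) : ℕ) : ZMod (p f ^ S'.e f))
            rw [hsub, ← hwK0 g hgI (y' g) (hy' g hgT), ← kf_eq hS' hrk (o' g) (y' g)]
            exact fc_cast hp hinj (S'.side (o' g)).F (hS'.ok (o' g)).cop (S'.side (o' g)).e
              (fun i => Lg (p i) ((S'.side (o' g)).e i) (y' g i) +
                (S'.side (o' g)).rho w i (y' g)) f
        · change S'.F ∣ X g - (u g + u' g) - S.cd hp hinj w (o g) (y g)
          rw [hsub]
          exact hdv'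
      · rw [card_image_of_injective, hc1]
        intro a b hab
        simp only [Prod.mk.injEq] at hab
        exact hab.1
      · intro t ht
        rw [mem_image] at ht
        obtain ⟨g, hg, rfl⟩ := ht
        exact ⟨rfl, hsum g (hT1 hg)⟩
      · intro t ht t' ht' htt
        rw [mem_image] at ht ht'
        obtain ⟨g, hg, rfl⟩ := ht
        obtain ⟨g', hg', rfl⟩ := ht'
        have hgg : g ≠ g' := fun h => htt (by rw [h])
        rw [Finset.disjoint_left]
        intro k hk hk'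
        rw [fkc, mem_union, Side.fk, Side.fk, mem_image, mem_image] at hk hk'
        rcases hk with ⟨i, -, rfl⟩ | ⟨i, hi, rfl⟩ <;> rcases hk' with ⟨j, -, hj⟩ | ⟨j, hj0, hj⟩
        · exact hgg (hinjo (hT1 hg) (hT1 hg') (hS.outer _ _ _ _ _ _ hj).symm)
        · exact hdisj _ _ _ _ _ _ hj.symm
        · exact hdisj _ _ _ _ _ _ hj
        · have hoo := hS'.outer _ _ _ _ _ _ hj
          change o' g' = o' g at hoo
          have hj' : (S'.side (o' g)).key j (y' g') = (S'.side (o' g)).key i (y' g) := by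
            have := hj
            change S'.key (o' g') j (y' g') = S'.key (o' g) i (y' g) at this
            rw [hoo] at this
            exact this
          obtain ⟨hji, hpre⟩ := (hS'.ok (o' g)).inj _ _ _ _ hj'
          have hff := hpre f (by rw [hji]; exact hf i (Finset.ne_of_mem_erase hi))
          exact hgg (hi1 hg hg' (Prod.ext hoo.symm hff.symm))
    · right
      rw [mem_image] at hq
      obtain ⟨g0, hg0, rfl⟩ := hq
      refine ⟨(o' g0, y' g0 f), ?_, T2.image (fun g => (g, y g f)), ?_, ?_, ?_, ?_⟩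
      · rw [mem_product]
        exact ⟨mem_image_of_mem _ (hTI hg0), mem_image_of_mem (fun z => z f) (hy' g0 hg0)⟩
      · intro t ht
        rw [mem_image] at ht
        obtain ⟨g, hg, rfl⟩ := ht
        rw [mem_product]
        exact ⟨hTI (hT2 hg), mem_image_of_mem (fun z => z f) (hy g (hT2 hg))⟩
      · rw [card_image_of_injective, hc2]
        intro a b hab
        exact (Prod.mk.inj hab).1
      · intro t ht
        rw [mem_image] at ht
        obtain ⟨g, hg, rfl⟩ := ht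
        have hgT := hT2 hg
        have hqq := hq2 g hg
        simp only [Prod.mk.injEq] at hqq
        have e1 := cd_modEq hp hinj hS w (o g) (y g) f
        have e2 := cd_modEq hp hinj hS' w (o' g) (y' g) f
        rw [kf_eq hS hrk] at e1
        rw [kf_eq hS' hrk, hwK0 g (hTI hgT) (y' g) (hy' g hgT)] at e2
        rw [hqq.1, hqq.2] at e2
        have e2' : S'.cd hp hinj w (o' g0) (y' g) ≡ (Lg (p f) (S'.e f) (y' g0 f)).val +
            ext K0 r0 (kf S' f (o' g0)) [MOD p f ^ S.e f] := e2.of_dvd (by rw [hef])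
        have e3 : u g + u' g ≡ 0 [MOD p f ^ S.e f] := (Nat.modEq_zero_iff_dvd).2
          (dvd_add (hU _ (hu g hgT)) (hU' _ (hu' g hgT)))
        have e4 := (e1.add e2').add e3
        have hs := hsum g hgT
        rw [hqq.1] at hs
        rw [hs, add_zero] at e4
        exact e4.symm
      · intro t ht t' ht' htt
        rw [mem_image] at ht ht'
        obtain ⟨g, hg, rfl⟩ := ht
        obtain ⟨g', hg', rfl⟩ := ht'
        have hgg : g ≠ g' := fun h => htt (by rw [h])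
        intro h
        exact hgg (hinjo (hT2 hg) (hT2 hg') h)
  · have h1 : (0 : ℝ) ≤ QA ^ m1 := pow_nonneg hQA0 _
    refine add_le_add (mul_le_mul_of_nonneg_right hcard h1) (le_of_eq ?_)
    push_cast
    ring

end Pool.Agent.Helper1.T5b
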