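import Pool.Agent.Helper1.T5b.Out1g

/-!
# T5b: estimate (5) for both sides of a keyed level
-/

set_option autoImplicit false

namespace Pool.Agent.Helper1.T5b

open Finset Pool.Agent.Helper27.T4 Pool.Agent.Helper29.T4 Pool.Agent.Helper22.HW
  Pool.Agent.Helper22.SL Pool.Agent.Helper1.T5 Pool.Agent.Helper75.T5 Pool.Agent.Helper36.T5

section Sides

variable {ι : Type*} [Fintype ι] [DecidableEq ι] {p : ι → ℕ} {κ ω γ : Type*} [DecidableEq κ]
  {Mk : κ → ℕ} {S S' : OSide p κ ω} {rk : ι → ℕ} {P : Pr κ}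

open Classical in
/-- many labels with pairwise different keys `o` -/
theorem est_up (hMk : ∀ k, 0 < Mk k) {K : Finset κ} {I : Finset γ} {X : γ → ℕ} {o o' : γ → ω}
    {Y Y' : Finset (ι → ℕ)} {f : ι} {Ir : ℕ → ℕ}
    (h : KOk p S S' rk Mk P K I X o o' Y Y' f Ir) (U U' : Finset ℕ)
    (hU : ∀ u ∈ U, p f ^ S.e f ∣ u) (hU' : ∀ u ∈ U', p f ^ S.e f ∣ u)
    (G : Finset (γ × (ℕ × ℕ)))
    (hG : ∀ g ∈ I, ∀ u ∈ U, ∀ u' ∈ U', ∀ c c', S.F ∣ c → c < S.F * NN p S.e → S'.F ∣ c' →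
      c' < S'.F * NN p S'.e → c + c' + (u + u') = X g → (g, (u, u')) ∈ G)
    {J : ℕ} (hJ : G.card ≤ J) {ρ : ℝ} (hρ : 0 ≤ ρ)
    (hA : (((J * (Y.card * Y'.card)) * (S'.F * NN p S'.e / (S.F * p f ^ S'.e f) + 1) : ℕ) : ℝ)
      ≤ ρ * ((NN p S.e : ℝ) * (MM p S'.e (univ.erase f) : ℝ)))
    (hB : (I.card : ℝ) * (Y.image (fun y => y f)).card ≤ ρ * (p f ^ S.e f : ℕ)) (N : ℕ) :
    PrG Mk K (fun w => ∃ T ⊆ I, N * N < T.card ∧ Set.InjOn o (T : Set γ) ∧
        ∀ g ∈ T, LHit h.pr h.inj S S' X o o' Y Y' U U' w g)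
      ((ρ * ((NN p S.e : ℝ) * (MM p S'.e (univ.erase f) : ℝ)) +
        ((I.card * Y'.card : ℕ) : ℝ) * ((I.card * Y.card : ℕ) : ℝ)) * ρ ^ N) := by
  have h1 := est5g h.pr h.inj h.ok h.ok' h.dj hMk f h.rank (by rw [h.ee]) K I X o o' Y Y' U U'
    hU hU' h.keys h.keys' G hG
    (NA := (J * (Y.card * Y'.card)) * (S'.F * NN p S'.e / (S.F * p f ^ S'.e f) + 1))
    (fun v => by
      rcases I.eq_empty_or_nonempty with hI | ⟨g, hg⟩
      · have : candG S S' I X Y Y' U U' f v G = ∅ := by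
          rw [candG, candSet, hI, empty_product, filter_empty, filter_empty]
        rw [this, card_empty]
        exact Nat.zero_le _
      · refine (candG_card S S' I X Y Y' U U' f v G ((h.ok.ok (o g)).cop f)).trans ?_
        exact Nat.mul_le_mul_right _ (Nat.mul_le_mul_right _ hJ)) ρ ρ hρ hρ hA hB N N
  refine PrG_mono (fun _ _ hw => hw) ?_ (prG_of_prLe h1)
  have h2 : (((I.image o').card * (Y'.image (fun y => y f)).card : ℕ) : ℝ) ≤
      ((I.card * Y'.card : ℕ) : ℝ) := by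
    exact_mod_cast Nat.mul_le_mul card_image_le card_image_le
  have h3 : ((I.card * (Y.image (fun y => y f)).card : ℕ) : ℝ) ≤ ((I.card * Y.card : ℕ) : ℝ) := by
    exact_mod_cast Nat.mul_le_mul le_rfl card_image_le
  have h4 : (0 : ℝ) ≤ ρ ^ N := pow_nonneg hρ _
  rw [add_mul, mul_assoc (((I.card * Y'.card : ℕ) : ℝ))]
  refine add_le_add (mul_le_mul_of_nonneg_right hA h4) ?_
  exact mul_le_mul h2 (mul_le_mul_of_nonneg_right h3 h4) (by positivity) (by positivity)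

open Classical in
/-- many labels with pairwise different keys `o'` -/
theorem est_lo (hMk : ∀ k, 0 < Mk k) {K : Finset κ} {I : Finset γ} {X : γ → ℕ} {o o' : γ → ω}
    {Y Y' : Finset (ι → ℕ)} {f : ι} {Ir : ℕ → ℕ}
    (h : KOk p S S' rk Mk P K I X o o' Y Y' f Ir) (U U' : Finset ℕ)
    (hU : ∀ u ∈ U, p f ^ S.e f ∣ u) (hU' : ∀ u ∈ U', p f ^ S.e f ∣ u)
    (G : Finset (γ × (ℕ × ℕ)))
    (hG : ∀ g ∈ I, ∀ u ∈ U, ∀ u' ∈ U', ∀ c c', S.F ∣ c → c < S.F * NN p S.e → S'.F ∣ c' →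
      c' < S'.F * NN p S'.e → c + c' + (u + u') = X g → (g, (u, u')) ∈ G)
    {J : ℕ} (hJ : G.card ≤ J) {ρ : ℝ} (hρ : 0 ≤ ρ)
    (hA : (((J * (Y.card * Y'.card)) * (S'.F * NN p S'.e / (S.F * p f ^ S'.e f) + 1) : ℕ) : ℝ)
      ≤ ρ * ((NN p S.e : ℝ) * (MM p S'.e (univ.erase f) : ℝ)))
    (hB : (I.card : ℝ) * (Y'.image (fun y => y f)).card ≤ ρ * (p f ^ S.e f : ℕ)) (N : ℕ) :
    PrG Mk K (fun w => ∃ T ⊆ I, N * N < T.card ∧ Set.InjOn o' (T : Set γ) ∧
        ∀ g ∈ T, LHit h.pr h.inj S S' X o o' Y Y' U U' w g)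
      ((ρ * ((NN p S.e : ℝ) * (MM p S'.e (univ.erase f) : ℝ)) +
        ((I.card * Y.card : ℕ) : ℝ) * ((I.card * Y'.card : ℕ) : ℝ)) * ρ ^ N) := by
  set G' : Finset (γ × (ℕ × ℕ)) := G.image (fun q => (q.1, (q.2.2, q.2.1))) with hG'
  have hJ' : G'.card ≤ J := card_image_le.trans hJ
  have hA' : (((J * (Y'.card * Y.card)) * (S'.F * NN p S'.e / (S.F * p f ^ S.e f) + 1) : ℕ) : ℝ)
      ≤ ρ * ((NN p S'.e : ℝ) * (MM p S.e (univ.erase f) : ℝ)) := by
    rw [h.ee] at hA ⊢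
    rw [mul_comm Y'.card Y.card]
    exact hA
  have h1 := est5g h.pr h.inj h.ok' h.ok (fun a b c d e f => (h.dj d e f a b c).symm) hMk f h.rank
    (by rw [h.ee]) K I X o' o Y' Y U' U
    (by rw [h.ee]; exact hU') (by rw [h.ee]; exact hU) h.keys' h.keys G'
    (fun g hg u' hu' u hu c' c a1 a2 a3 a4 a5 => by
      rw [hG', mem_image]
      exact ⟨(g, (u, u')), hG g hg u hu u' hu' c c' a3 a4 a1 a2 (by omega), rfl⟩)
    (NA := (J * (Y'.card * Y.card)) * (S'.F * NN p S'.e / (S.F * p f ^ S.e f) + 1))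
    (fun v => by
      rcases I.eq_empty_or_nonempty with hI | ⟨g, hg⟩
      · have : candG S' S I X Y' Y U' U f v G' = ∅ := by
          rw [candG, candSet, hI, empty_product, filter_empty, filter_empty]
        rw [this, card_empty]
        exact Nat.zero_le _
      · refine (candG_card' S S' I X Y Y' U U' f v G' ((h.ok.ok (o g)).cop f)).trans ?_
        exact Nat.mul_le_mul_right _ (Nat.mul_le_mul_right _ hJ')) ρ ρ hρ hρ hA'
      (by rw [h.ee]; exact hB) N N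
  refine PrG_mono ?_ ?_ (prG_of_prLe h1)
  · rintro r _ ⟨T, hT, hc, hi, hh⟩
    refine ⟨T, hT, hc, hi, fun g hg => ?_⟩
    obtain ⟨y, hy, y', hy', u, hu, u', hu', he⟩ := hh g hg
    exact ⟨y', hy', y, hy, u', hu', u, hu, by omega⟩
  · have h2 : (((I.image o).card * (Y.image (fun y => y f)).card : ℕ) : ℝ) ≤
        ((I.card * Y.card : ℕ) : ℝ) := by
      exact_mod_cast Nat.mul_le_mul card_image_le card_image_le
    have h3 : ((I.card * (Y'.image (fun y => y f)).card : ℕ) : ℝ) ≤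
        ((I.card * Y'.card : ℕ) : ℝ) := by
      exact_mod_cast Nat.mul_le_mul le_rfl card_image_le
    have h4 : (0 : ℝ) ≤ ρ ^ N := pow_nonneg hρ _
    have h5 : (ρ * ((NN p S'.e : ℝ) * (MM p S.e (univ.erase f) : ℝ))) =
        ρ * ((NN p S.e : ℝ) * (MM p S'.e (univ.erase f) : ℝ)) := by rw [h.ee]
    rw [h5] at hA'
    rw [add_mul, mul_assoc (((I.card * Y.card : ℕ) : ℝ))]
    refine add_le_add (mul_le_mul_of_nonneg_right hA' h4) ?_
    exact mul_le_mul h2 (mul_le_mul_of_nonneg_right h3 h4) (by positivity) (by positivity)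

end Sides

end Pool.Agent.Helper1.T5b
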