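import Pool.Agent.Helper1.T5b.ZDefs
import Pool.Agent.Helper57.T5b.Z0
import Pool.Agent.Helper83.T5b.Leaf
import Pool.Agent.Helper2.T5b.ZSize
import Pool.Agent.Helper84.T5b.Top

/-!
# T5b (MP_12a1af), line 6: `Blk CaseInj RpC` from `ZStatS`

If the digits between the states are below the joint front of the lower state, at most a constant
number of labels have the same sum of the joint codes (`inj_sum`); every label has few hits
(line 4).
-/

set_option autoImplicit false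

namespace Pool.Agent.Helper1.T5b

open Finset Pool.Agent.Helper37.T5b Pool.Agent.Helper84.T5b Pool.Agent.Helper42.T5.Pr
open Pool.Agent.Helper44.T5b
open Pool.Agent.Helper5.ET (bb era)
open Pool.Agent.Helper30.T5b (BP)

/-- representatives of the values of a function -/
theorem exists_reps {α : Type*} [DecidableEq α] (L : Finset α) (s : α → ℕ) :
    ∃ H ⊆ L, Set.InjOn s (H : Set α) ∧ H.card = (L.image s).card := by
  rcases Nat.eq_zero_or_pos (L.image s).card with h | h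
  · exact ⟨∅, empty_subset _, by simp, by simp [h]⟩
  · obtain ⟨T, hT, hc, hi⟩ := Pool.Agent.Helper75.T5.exists_inj_subset L s
      ((L.image s).card - 1) (by omega)
    exact ⟨T, hT, hi, by omega⟩

/-- the labels of the hits, up to the multiplicity of the sums -/
theorem LbH_card_le {m k l l' : ℕ} {w : Key → ℕ} {n M : ℕ}
    (hM : ∀ T, ((LbH m k l l' w n).filter (fun q => sJ m k l l' w q = T)).card ≤ M) :
    ∃ c, ZHitC m k l l' w c ∧ (LbH m k l l' w n).card ≤ c * M := by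
  classical
  obtain ⟨H, hH, hinj, hc⟩ := exists_reps (LbH m k l l' w n) (sJ m k l l' w)
  refine ⟨H.card, ⟨n, H, hH, hinj, rfl⟩, ?_⟩
  rw [hc, card_eq_sum_card_image (sJ m k l l' w) (LbH m k l l' w n)]
  exact sum_le_card_nsmul _ _ _ (fun b _ => hM b)

/-- every hit has its label -/
theorem Hts_card_le {m k l l' : ℕ} {w : Key → ℕ} {n : ℕ} {R : ℕ}
    (hR : ∀ x x' : JF → ℕ, ((Hts m k l l' w n).filter
      (fun q => q.1.1.1 = x ∧ q.2.1.1 = x')).card ≤ R) :
    (Hts m k l l' w n).card ≤ (LbH m k l l' w n).card * R := by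
  classical
  unfold LbH
  rw [card_eq_sum_card_image (fun q : Par m k l × Par m k l' => (q.1.1.1, q.2.1.1))
    (Hts m k l l' w n)]
  refine sum_le_card_nsmul _ _ _ (fun b _ => ?_)
  refine le_trans (card_le_card ?_) (hR b.1 b.2)
  intro q hq
  obtain ⟨h1, h2⟩ := mem_filter.1 hq
  exact mem_filter.2 ⟨h1, congrArg Prod.fst h2, congrArg Prod.snd h2⟩

/-- **line 6** -/
theorem blk_inj_of (hZ : ZStatS) : Blk CaseInj RpC := by
  classical
  obtain ⟨E, m1, hZ⟩ := hZ
  obtain ⟨E', m2, hf⟩ := Pool.Agent.Helper83.T5b.blk_leaf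
  refine ⟨E + E', max m1 (max m2 1), fun m hm => ?_⟩
  have hm1 : m1 ≤ m := (le_max_left _ _).trans hm
  have hm2 : m2 ≤ m := (le_max_left _ _).trans ((le_max_right _ _).trans hm)
  have hm0 : 0 < m := by
    have := (le_max_right _ _).trans ((le_max_right _ _).trans hm)
    omega
  obtain ⟨K1, C1, c1, m1', a1, a2, a3, hZ⟩ := hZ m hm1
  obtain ⟨K2, C2, c2, m2', b1, b2, b3, hf⟩ := hf m hm2
  obtain ⟨K3, h3⟩ := exists_conds hm0 (m ^ 2)
  obtain ⟨K4, h4⟩ := Pool.Agent.Helper30.T5b.exists_late (k := m ^ 2) hm0 0 0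
  set CC : ℕ := (2 * BP (m ^ 2)) ^ 7 with hCC
  refine ⟨max K1 K2 + K3 + K4 + 1, C1 * CC * C2, min c1 c2, m1' + m2', by positivity,
    lt_min a2 b2, by positivity, ?_⟩
  intro l l' hl' hll hp K hK hK'
  have h1 : K1 ≤ l' := by omega
  have h2 : K2 ≤ l' := by omega
  have hl1 : (1 : ℝ) ≤ (l : ℝ) := by exact_mod_cast (show 1 ≤ l by omega)
  have hl0 : (0 : ℝ) < (l : ℝ) := by linarith
  have hsum : (l : ℝ) ^ (((E + E' : ℕ) : ℝ) / (m : ℝ)) =
      (l : ℝ) ^ ((E : ℝ) / (m : ℝ)) * (l : ℝ) ^ ((E' : ℝ) / (m : ℝ)) := by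
    rw [← Real.rpow_add hl0]
    congr 1
    push_cast
    ring
  have hD := Pool.Agent.Helper57.T5b.DZ.of_inj hm0 hll hp
  have hA := hZ l l' h1 hll hD K hK hK'
  have hB := hf l l' h2 hll hD.near K hK hK'
  obtain ⟨g1, -, -, -⟩ := h3 l' (by omega)
  obtain ⟨_, g2, g3, _, _⟩ := h4 l' (by omega)
  have hclose := Pool.Agent.Helper39.T5b.close_of_near hm0 hll g1 g3 hD.near
  refine PrLe_mono (fun r _ hw => ?_) ?_ (PrLe_or hA hB)
  · generalize ext K r = w at hw ⊢
    by_contra hcon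
    rw [not_or] at hcon
    obtain ⟨hn1, hn2⟩ := hcon
    push Not at hn1 hn2
    obtain ⟨c, ⟨n, rfl⟩, hlt⟩ := hw
    set Mf := ⌊C2 * (l : ℝ) ^ ((E' : ℝ) / (m : ℝ))⌋₊ with hMf
    have hMf' : (Mf : ℝ) ≤ C2 * (l : ℝ) ^ ((E' : ℝ) / (m : ℝ)) := Nat.floor_le (by positivity)
    have hmul : ∀ T, ((LbH m (m ^ 2) l l' w n).filter
        (fun q => sJ m (m ^ 2) l l' w q = T)).card ≤ CC := by
      intro T
      refine le_trans (card_le_card ?_) ((inj_sum hm0 g1 hll hp.2.1 hclose hp.2.2 w T).trans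
        (Pool.Agent.Helper2.T5b.CJ_le _ _))
      intro q hq
      obtain ⟨q1, q2⟩ := mem_filter.1 hq
      refine mem_filter.2 ⟨?_, q2⟩
      rw [LbH, mem_image] at q1
      obtain ⟨p, hp1, rfl⟩ := q1
      have hp2 := (mem_product.1 (mem_filter.1 hp1).1)
      exact mem_product.2 ⟨(mem_product.1 (mem_product.1 hp2.1).1).1,
        (mem_product.1 (mem_product.1 hp2.2).1).1⟩
    obtain ⟨c, hc1, hc2⟩ := LbH_card_le hmul
    have hc3 := hn1 c hc1
    have hcard := Hts_card_le (w := w) (n := n) (R := Mf)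
      (fun x x' => Nat.le_floor (hn2 _ ⟨n, x, x', rfl⟩))
    have h5 : (Rp m (m ^ 2) l l' w n : ℝ) ≤ (c : ℝ) * CC * Mf := by
      have := ((Rp_le m (m ^ 2) l l' w n).trans hcard).trans (Nat.mul_le_mul_right _ hc2)
      exact_mod_cast this
    have h6 : (c : ℝ) * CC * Mf ≤
        C1 * CC * C2 * (l : ℝ) ^ (((E + E' : ℕ) : ℝ) / (m : ℝ)) := by
      rw [hsum]
      calc (c : ℝ) * CC * Mf
          ≤ (C1 * (l : ℝ) ^ ((E : ℝ) / (m : ℝ))) * CC *
            (C2 * (l : ℝ) ^ ((E' : ℝ) / (m : ℝ))) := by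
            refine mul_le_mul (mul_le_mul_of_nonneg_right hc3 (Nat.cast_nonneg _)) hMf'
              (Nat.cast_nonneg _) (by positivity)
        _ = _ := by ring
    linarith
  · have e1 : Real.exp (-((l : ℝ) ^ c1)) ≤ Real.exp (-((l : ℝ) ^ min c1 c2)) :=
      Real.exp_le_exp.2 (neg_le_neg (Real.rpow_le_rpow_of_exponent_le hl1 (min_le_left _ _)))
    have e2 : Real.exp (-((l : ℝ) ^ c2)) ≤ Real.exp (-((l : ℝ) ^ min c1 c2)) :=
      Real.exp_le_exp.2 (neg_le_neg (Real.rpow_le_rpow_of_exponent_le hl1 (min_le_right _ _)))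
    nlinarith [mul_le_mul_of_nonneg_left e1 a3, mul_le_mul_of_nonneg_left e2 b3]

end Pool.Agent.Helper1.T5b
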