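import Pool.Agent.Helper1.T5b.ZFix

/-!
# T5b (MP_12a1af), lines 6 and 7: `FixedS` (A5)
-/

set_option autoImplicit false

namespace Pool.Agent.Helper1.T5b

open Finset
open Pool.Agent.Helper5.ET hiding Key Mk AA Rp keysOf el ext
open Pool.Agent.Helper27.T4
open Pool.Agent.Helper27.T5b hiding FF_pos dvd_cs cs_lt QQ_eq_NN c0_lt Jn_pos
open Pool.Agent.Helper37.T5b
open Pool.Agent.Helper30.T5b hiding pz_prime pz_inj NL_pos
open Pool.Agent.Helper22.HW Pool.Agent.Helper22.SL Pool.Agent.Helper57.T5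
open Pool.Agent.Helper39.T5 Pool.Agent.Helper50.T5
open Pool.Agent.Helper84.T5b Pool.Agent.Helper44.T5 Pool.Agent.Helper44.T5b
open Pool.Agent.Helper22.NEARb Pool.Agent.Helper75.T5 Pool.Agent.Helper1.T5
open Pool.Agent.Helper36.T5

variable {m k : ℕ}

namespace Fix

variable {l' l : ℕ} {K : Finset Key} {w : Key → ℕ} {n h : ℕ} {v : Key → ℕ} {C : ℕ}

/-- pairwise different keys of the upper state -/
theorem up (F : Fix m k l' l K w n h v C) {N : ℕ} (hN : 1 ≤ N) :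
    PrG (Mk m k) K (fun w' => ∃ H ⊆ LbT m k l l' w n,
        N * N * (N + 1) ^ 2 ^ (4 * h) < H.card ∧ Set.InjOn (fun g : LT => g.1) (H : Set LT) ∧
        ∀ g ∈ H, KHz m k l' l h (Bw m k l (1 + h) v) (Bw m k l' (1 + h) v) w' g)
      (Real.exp (((3 * C + 80 : ℕ) : ℝ) * l) * rho m k l h ^ N) := by
  refine F.side_gen (fun H => Set.InjOn (fun g : LT => g.1) (H : Set LT))
    (fun H T hT hH => hH.mono (by exact_mod_cast hT)) hN
    (fun U U' hU hU' G hG J hJ hc => ?_)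
  have h1 := est_up (Mk_pos m k) F.kok U U' hU hU' G hG hJ (rho_pos m k l h).le hc F.qb' N
  refine PrG_mono (fun _ _ hw => hw) ?_ h1
  exact mul_le_mul_of_nonneg_right F.pref_le (pow_nonneg (rho_pos m k l h).le _)

/-- pairwise different keys of the lower state -/
theorem lo (F : Fix m k l' l K w n h v C) {N : ℕ} (hN : 1 ≤ N) :
    PrG (Mk m k) K (fun w' => ∃ H ⊆ LbT m k l l' w n,
        N * N * (N + 1) ^ 2 ^ (4 * h) < H.card ∧ Set.InjOn (fun g : LT => g.2.1) (H : Set LT) ∧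
        ∀ g ∈ H, KHz m k l' l h (Bw m k l (1 + h) v) (Bw m k l' (1 + h) v) w' g)
      (Real.exp (((3 * C + 80 : ℕ) : ℝ) * l) * rho m k l h ^ N) := by
  refine F.side_gen (fun H => Set.InjOn (fun g : LT => g.2.1) (H : Set LT))
    (fun H T hT hH => hH.mono (by exact_mod_cast hT)) hN
    (fun U U' hU hU' G hG J hJ hc => ?_)
  have h1 := est_lo (Mk_pos m k) F.kok U U' hU hU' G hG hJ (rho_pos m k l h).le hc F.qb' N
  refine PrG_mono (fun _ _ hw => hw) ?_ h1
  exact mul_le_mul_of_nonneg_right F.pref_le (pow_nonneg (rho_pos m k l h).le _)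

end Fix

/-- the number of labels -/
theorem count_le {N h : ℕ} (h2 : h ≤ 2) :
    N * N * (N + 1) ^ 2 ^ (4 * h) * (N * N * (N + 1) ^ 2 ^ (4 * h) *
      (N + 1) ^ 2 ^ (4 * (1 + h))) ≤ (N + 1) ^ 6000 := by
  have h1 : N * N ≤ (N + 1) ^ 2 := by nlinarith
  have h3 : (N + 1) ^ 2 ^ (4 * h) ≤ (N + 1) ^ 256 :=
    Nat.pow_le_pow_right (by omega) (by
      calc 2 ^ (4 * h) ≤ 2 ^ 8 := Nat.pow_le_pow_right (by norm_num) (by omega)
        _ = 256 := by norm_num)
  have h4 : (N + 1) ^ 2 ^ (4 * (1 + h)) ≤ (N + 1) ^ 4096 :=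
    Nat.pow_le_pow_right (by omega) (by
      calc 2 ^ (4 * (1 + h)) ≤ 2 ^ 12 := Nat.pow_le_pow_right (by norm_num) (by omega)
        _ = 4096 := by norm_num)
  have h5 : N * N * (N + 1) ^ 2 ^ (4 * h) ≤ (N + 1) ^ 258 := by
    calc _ ≤ (N + 1) ^ 2 * (N + 1) ^ 256 := Nat.mul_le_mul h1 h3
      _ = (N + 1) ^ 258 := by rw [← pow_add]
  calc _ ≤ (N + 1) ^ 258 * ((N + 1) ^ 258 * (N + 1) ^ 4096) :=
        Nat.mul_le_mul h5 (Nat.mul_le_mul h5 h4)
    _ = (N + 1) ^ 4612 := by rw [← pow_add, ← pow_add]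
    _ ≤ (N + 1) ^ 6000 := Nat.pow_le_pow_right (by omega) (by norm_num)

/-- **A5**: joint keys and windows fixed -/
theorem fixedS (h0 : HzS m k) (h1 : LabS m k) (h3 : OkS m k) (h4 : HitS m k) (h5 : NumZS m k)
    (h6 : WinZS m k) (h8 : SizeZS m k) (a0 : CandS m k) (a1 : KokS m k) (a4 : ConstS m k) :
    FixedS m k := by
  classical
  obtain ⟨K0, h0⟩ := h0
  obtain ⟨K1, h1⟩ := h1
  obtain ⟨K3, h3⟩ := h3
  obtain ⟨K4, h4⟩ := h4
  obtain ⟨K5, h5⟩ := h5
  obtain ⟨K6, h6⟩ := h6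
  obtain ⟨K8, C, h8⟩ := h8
  obtain ⟨K9, a0⟩ := a0
  obtain ⟨K10, a1⟩ := a1
  obtain ⟨K11, a4⟩ := a4
  refine ⟨K0 + K1 + K3 + K4 + K5 + K6 + K8 + K9 + K10 + K11, 3 * C + 100, ?_⟩
  intro l' l hl hD K hK hK' w n h hh hn v hv hv' N hN
  obtain ⟨z1, z2, z3, z4, z5, z6, z7⟩ := h0 l' l (by omega) hD
  obtain ⟨y1, y2⟩ := h1 l' l (by omega) hD w n
  obtain ⟨x1, x2, x3, x4⟩ := h3 l' l (by omega) hD
  obtain ⟨u1, u2, u3⟩ := h4 l' l (by omega) hD w
  obtain ⟨t1, t2, t3, t4⟩ := h5 l' l (by omega) hD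
  obtain ⟨s1, s2, s3⟩ := h8 l (by omega)
  have hkok := a1 l' l (by omega) hD K hK hK' w n h hh
  set K' := K \ (keysJ m k l l' ∪ deep m k l l' (1 + h)) with hK'd
  have F : Fix m k l' l K' w n h v C :=
    { kok := hkok
      okF := x1 0 (1 + h) (by omega) (by omega) 0 0
      cardI := card_image_le.trans y1
      cls1 := by
        intro c
        refine le_trans ?_ (y2 1 le_rfl (by omega) c)
        refine le_trans (card_le_card (t := ((LbJ m k l l' w n).filter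
          (fun q => (n - sJ m k l l' w q) % FF m k l' 1 = c % FF m k l' 1)).image
          (fun q => ((okey m k l 0 q.1, (okey m k l' 0 q.2, n - sJ m k l l' w q)) : LT))) ?_)
          card_image_le
        intro g hg
        obtain ⟨hg1, hg2⟩ := mem_filter.1 hg
        rw [LbT, mem_image] at hg1
        obtain ⟨q, hq, rfl⟩ := hg1
        exact mem_image.2 ⟨q, mem_filter.2 ⟨hq, hg2⟩, rfl⟩
      numF := t1 0 (1 + h) (by omega) (by omega)
      numT := t1 1 h le_rfl (by omega)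
      qb := by rw [hh]; exact t2
      y2 := t3
      qu := t4
      win := by
        intro t h' ht hh' hth
        have := h6 l' l (by omega) hD v (by rw [← hh]; exact hv) (by rw [← hh]; exact hv') t h' ht
          hh' (by omega)
        rw [← hh] at this
        exact this
      cand := fun J ρ hρ hJ => a0 l' l (by omega) hD J h ρ hρ hJ
      h3 := by omega
      wl := s2
      l1 := by omega
      sz := s3 l' (by omega) hD
      sn := by
        refine le_trans ?_ s1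
        exact_mod_cast (by omega : n + 1 ≤ 34 * NL m k l + 1) }
  have hr0 := Fix.rho_pos m k l h
  have hr1 := Fix.rho_le_one m k l h
  have hrN : (0 : ℝ) ≤ Fix.rho m k l h ^ N := pow_nonneg hr0.le _
  have hc : ∀ g0 ∈ LbT m k l l' w n,
      PrG (Mk m k) K' (fun w' => ∃ H ⊆ LbT m k l l' w n,
        (N + 1) ^ 2 ^ (4 * (1 + h)) < H.card ∧ (∀ g ∈ H, g.1 = g0.1 ∧ g.2.1 = g0.2.1) ∧
        ∀ g ∈ H, KHz m k l' l h (Bw m k l (1 + h) v) (Bw m k l' (1 + h) v) w' g)
      ((3 * ((1 + h : ℕ) : ℝ) + 1) * Real.exp (42 * wW m k l 0) *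
        Fix.rho m k l h ^ (N + 1)) := by
    intro g0 hg0
    refine PrG_mono ?_ le_rfl (a4 l' l (by omega) hD K hK hK' w n h hh v hv hv' g0 hg0 N hN)
    rintro r _ ⟨H, hH, hHc, hHk, hHh⟩
    refine ⟨H, hH, hHc.le, hHk, fun g hg => ?_⟩
    obtain ⟨y, hy, y', hy', t, ht, hHt⟩ := hHh g hg
    obtain ⟨e1, e2⟩ := hHk g hg
    obtain ⟨-, -, u3'⟩ := h4 l' l (by omega) hD (ext K' r)
    refine u3' h hh g0.1 g0.2.1 y hy y' hy' _ _ t g.2.2 ?_ hHt
    rw [← e1, ← e2]
    exact ht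
  have hall := out_all2 (K := K') (I := LbT m k l l' w n) (o := fun g : LT => g.1)
    (o' := fun g : LT => g.2.1)
    (fun w' g => KHz m k l' l h (Bw m k l (1 + h) v) (Bw m k l' (1 + h) v) w' g)
    (Nc := (N + 1) ^ 2 ^ (4 * (1 + h)))
    (εc := (3 * ((1 + h : ℕ) : ℝ) + 1) * Real.exp (42 * wW m k l 0) *
        Fix.rho m k l h ^ (N + 1))
    (mul_nonneg (by positivity) (pow_nonneg hr0.le _)) (F.up hN) (F.lo hN)
    (fun q hq => by
      obtain ⟨g0, hg0, rfl⟩ := (@Finset.mem_image _ _ (_) _ _ _).1 hq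
      exact hc g0 hg0) (np := CJ k (sL m k l) * IJ m k l l') F.cardI
  refine PrG_mono ?_ ?_ hall
  · rintro r _ ⟨H, hH, hHc, hHh⟩
    exact ⟨H, hH, lt_of_le_of_lt (count_le F.h3) hHc, hHh⟩
  · have hl1 : (1 : ℝ) ≤ l := by exact_mod_cast F.l1
    have hwl : (wW m k l 0 : ℝ) ≤ l := by exact_mod_cast F.wl
    have hC : (0 : ℝ) ≤ (C : ℝ) * l := by positivity
    have hΓ : Real.exp (42 * wW m k l 0) ≤ Real.exp (42 * l) := Real.exp_le_exp.2 (by linarith)
    have e3 : (3 * ((1 + h : ℕ) : ℝ) + 1) ≤ 10 := by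
      have : ((1 + h : ℕ) : ℝ) ≤ 3 := by exact_mod_cast (by have := F.h3; omega : 1 + h ≤ 3)
      linarith
    have e4 : Fix.rho m k l h ^ (N + 1) ≤ Fix.rho m k l h ^ N :=
      pow_le_pow_of_le_one hr0.le hr1 (by omega)
    have e5 : ((CJ k (sL m k l) * IJ m k l l' : ℕ) : ℝ) * ((3 * ((1 + h : ℕ) : ℝ) + 1) *
        Real.exp (42 * wW m k l 0) * Fix.rho m k l h ^ (N + 1)) ≤
        Real.exp (C * l) * (10 * Real.exp (42 * l) * Fix.rho m k l h ^ N) := by
      refine mul_le_mul F.sz ?_ (by positivity) (Real.exp_pos _).le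
      gcongr
    have e6 : Real.exp (C * (l : ℝ)) * Real.exp (42 * l) ≤
        Real.exp (((3 * C + 80 : ℕ) : ℝ) * l) := by
      rw [← Real.exp_add]
      apply Real.exp_le_exp.2
      push_cast
      nlinarith
    have e7 : (12 : ℝ) ≤ Real.exp (20 * l) := by
      have := Real.add_one_le_exp (20 * (l : ℝ))
      linarith
    have e8 : Real.exp (((3 * C + 100 : ℕ) : ℝ) * l) =
        Real.exp (((3 * C + 80 : ℕ) : ℝ) * l) * Real.exp (20 * l) := by
      rw [← Real.exp_add]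
      congr 1
      push_cast
      ring
    show _ ≤ Real.exp (((3 * C + 100 : ℕ) : ℝ) * l) * Fix.rho m k l h ^ N
    rw [e8]
    set Z := Real.exp (((3 * C + 80 : ℕ) : ℝ) * l) with hZ
    have hZ0 : 0 < Z := Real.exp_pos _
    have e9 : Real.exp (C * l) * (10 * Real.exp (42 * l) * Fix.rho m k l h ^ N) ≤
        10 * Z * Fix.rho m k l h ^ N := by
      have : Real.exp (C * l) * (10 * Real.exp (42 * l) * Fix.rho m k l h ^ N) =
          10 * (Real.exp (C * l) * Real.exp (42 * l)) * Fix.rho m k l h ^ N := by ring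
      rw [this]
      gcongr
    have e10 : Z * 12 * Fix.rho m k l h ^ N ≤ Z * Real.exp (20 * l) * Fix.rho m k l h ^ N := by
      gcongr
    linarith

end Pool.Agent.Helper1.T5b
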