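import Pool.Agent.Helper1.T5b.ZOk
import Pool.Agent.Helper1.T5b.ZFixed
import Pool.Agent.Helper1.T5b.Inj
import Pool.Agent.Helper36.T5b.ZStat
import Pool.Agent.Helper97.T5b.ConstS
import Pool.Agent.Helper37.T5b.ZWin
import Pool.Agent.Helper63.T5b.ZNum
import Pool.Agent.Helper39.T5b.ZKok
import Pool.Agent.Helper36.T5b.Two
import Pool.Agent.Helper96.T5b.MultTwo

/-!
# T5b (MP_12a1af): the lines 6 and 7
-/

set_option autoImplicit false

namespace Pool.Agent.Helper1.T5b

open Pool.Agent.Helper84.T5b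

/-- **the common target of the lines 6 and 7** -/
theorem zStat : ZStatS := by
  refine Pool.Agent.Helper36.T5b.zstat_of (fun m hm => ?_)
  have hk : 3 ≤ m ^ 2 := by nlinarith
  have hz := Pool.Agent.Helper57.T5b.hzS (m := m) (k := m ^ 2) hm hk
  have hlab := Pool.Agent.Helper39.T5b.labS (m := m) (k := m ^ 2) hm
  have hkey := Pool.Agent.Helper12.T5b.keyS (m := m) (k := m ^ 2) hm hk
  have hok := okS (m := m) (k := m ^ 2) hm hz
  have hhit := Pool.Agent.Helper55.T5b.hitS (m := m) (k := m ^ 2) hm hk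
  have hnum := Pool.Agent.Helper63.T5b.numZS (m := m) (k := m ^ 2) hm hz
  have hwin := Pool.Agent.Helper37.T5b.ZWin.winZS_of (m := m) (k := m ^ 2) hm hz hok
  have hsz := Pool.Agent.Helper2.T5b.sizeZS (m := m) (k := m ^ 2) (by omega)
  have hcand := Pool.Agent.Helper39.T5b.candS m (m ^ 2)
  have hkok := Pool.Agent.Helper39.T5b.kokS (m := m) (k := m ^ 2) (by omega) hz hlab hkey hok
  have hcon := Pool.Agent.Helper97.T5b.constS hz hlab hkey hok hnum hwin
  exact fixedS hz hlab hok hhit hnum hwin hsz hcand hkok hcon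

/-- **line 6** -/
theorem blk_inj : Blk CaseInj RpC := blk_inj_of zStat

/-- **line 7** -/
theorem blk_two_free : Blk CaseTwo FreeC :=
  Pool.Agent.Helper36.T5b.two_of zStat Pool.Agent.Helper96.T5b.multS

end Pool.Agent.Helper1.T5b
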