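import Pool.Agent.Helper36.T5.Out1
import Pool.Agent.Helper1.T5b.Est5g

/-!
# T5b, OUT1, general form

As `Pool.Agent.Helper36.T5.out1`, but the bound for a fixed value of the target after the keyed
level is a hypothesis (class form, either side), and the conclusion is for any hereditary
property of the set of labels.  `out_all2`: all labels, both sides.
-/

set_option autoImplicit false

namespace Pool.Agent.Helper1.T5b

open Finset Pool.Agent.Helper27.T4 Pool.Agent.Helper29.T4 Pool.Agent.Helper22.HW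
  Pool.Agent.Helper22.SL Pool.Agent.Helper1.T5 Pool.Agent.Helper75.T5 Pool.Agent.Helper36.T5

section Out

variable {ι : Type*} [Fintype ι] [DecidableEq ι] {p : ι → ℕ} {κ ω γ : Type*} [DecidableEq κ]
  {Mk : κ → ℕ} {S S' : OSide p κ ω} {rk : ι → ℕ} {P : Pr κ}

/-- many different values of the target after the keyed level -/
theorem tail_static (hMk : ∀ k, 0 < Mk k) {K : Finset κ} {I : Finset γ} {X : γ → ℕ} {o o' : γ → ω}
    {Y Y' : Finset (ι → ℕ)} {f : ι} {Ir : ℕ → ℕ}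
    (h : KOk p S S' rk Mk P K I X o o' Y Y' f Ir) (B B' : Finset ℕ) {E I0 : ℕ}
    (hI0 : (∏ i, (2 * (p i - 1))) * I.card ≤ I0)
    (hE : ∀ t, P.M' * P.L0 ∣ t → ((B ×ˢ B').filter
      (fun q => P.M * P.L P.h * q.1 + P.M' * P.L P.h * q.2 ∈ APt P P.h t)).card ≤ E)
    {ρ Γ : ℝ} (hρ : 0 ≤ ρ)
    (hA : ∀ r < P.h, 80 * (I0 : ℝ) * P.A r * P.p r 0 *
      P.p r 2 * Real.sqrt (P.q r 1) ≤ ρ * P.q r 1)
    (hB : ∀ r < P.h, 1 ≤ r → Ir r * P.A r * P.pc r ≤ ρ)
    (hL : ((I0 * E : ℕ) : ℝ) * P.A P.h * P.pc P.h ≤ ρ)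
    (hΓ : ∀ r < P.h, (P.q r 0 * P.q r 1 : ℕ) * (P.W r * P.q r 1) ≤ Γ) (hΓ' : P.W P.h ≤ Γ)
    {m : ℕ} (hm : 1 ≤ m) :
    PrG Mk K (fun w => ∃ H ⊆ tgt h.pr h.inj S S' I X o o' Y Y' (P.M' * P.L0) w,
      (m + 1) ^ 2 ^ (4 * P.h) ≤ H.card ∧ ∀ t ∈ H, HitT P w B B' t)
      ((3 * P.h + 1) * Γ * ρ ^ (m + 1)) := by
  classical
  set C := ∏ i, (2 * (p i - 1)) with hC
  set M := P.M' * P.L0 with hM
  set T2 := tgt h.pr h.inj S S' I X o o' Y Y' M with hT2
  set K0 := K.filter (fun k => (∃ o i y, S.key o i y = k) ∨ (∃ o i y, S'.key o i y = k)) with hK0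
  have hK0K : K0 ⊆ K := filter_subset _ _
  have hst : PrG Mk K (fun w => ∃ H ⊆ T2 w, 1 * (m + 1) ^ 2 ^ (4 * P.h) ≤ H.card ∧
      ∀ t ∈ H, HitT P w B B' t) (0 + (3 * P.h + 1) * Γ * ρ ^ (m + 1)) := by
    refine cond_static (Ir := Ir) (I := I0) h.pok hMk hK0K T2 (fun _ t => t) ?_ ?_
      (fun _ => True)
      (PrG_false (fun _ _ hn => hn trivial) le_rfl) le_rfl ?_ ?_ ?_ B B' hρ hA hB ?_ hΓ hΓ' hm
    · intro w w' hw
      refine ⟨?_, fun _ _ => rfl⟩
      refine tgt_congr h.pr h.inj S S' I X o o' Y Y' M ?_ ?_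
      · intro g hg y hy i
        exact hw _ (mem_filter.2 ⟨h.keys g hg y hy i, Or.inl ⟨_, _, _, rfl⟩⟩)
      · intro g hg y hy i
        exact hw _ (mem_filter.2 ⟨h.keys' g hg y hy i, Or.inr ⟨_, _, _, rfl⟩⟩)
    · intro r hr i y hy
      obtain ⟨k1, k2⟩ := h.pkeys r hr i y hy
      refine ⟨mem_sdiff.2 ⟨k1, ?_⟩, mem_sdiff.2 ⟨k2, ?_⟩⟩
      · intro hk
        rcases (mem_filter.1 hk).2 with ⟨o1, i1, y1, he⟩ | ⟨o1, i1, y1, he⟩
        · exact (h.sep r i y o1 i1 y1).1 he.symm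
        · exact (h.sep r i y o1 i1 y1).2.1 he.symm
      · intro hk
        rcases (mem_filter.1 hk).2 with ⟨o1, i1, y1, he⟩ | ⟨o1, i1, y1, he⟩
        · exact (h.sep r i y o1 i1 y1).2.2.1 he.symm
        · exact (h.sep r i y o1 i1 y1).2.2.2 he.symm
    · intro w _ t
      refine le_trans (card_le_card (t := {t}) ?_) (by simp)
      intro x hx
      exact mem_singleton.2 (mem_filter.1 hx).2
    · intro w _
      have e : (T2 w).image (fun t => t) = T2 w := image_id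
      rw [e]
      exact tgS_tgt h.pr h.odd h.inj h.ok h.ok' h.ee h.adm h.adm' I X o o' h.Q h.win h.F h.Ir0
        h.Ir w
    · intro w _
      have e : (T2 w).image (fun t => t) = T2 w := image_id
      rw [e]
      exact (tgt_card h.pr h.odd h.inj h.ok h.ok' h.ee h.adm h.adm' I X o o' h.Q w).trans hI0
    · intro w _
      have e : (T2 w).image (fun t => t) = T2 w := image_id
      rw [e]
      refine le_trans ?_ hL
      have hdv : ∀ t ∈ T2 w, P.M' * P.L0 ∣ t := by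
        intro t ht
        obtain ⟨g, -, h1, -⟩ := tgt_spec h.pr h.inj h.ok h.ok' ht
        exact h1
      have h1 : PPs P (T2 w) B B' ≤ I0 * E :=
        (PPs_le (fun t ht => hE t (hdv t ht))).trans (Nat.mul_le_mul_right _
          ((tgt_card h.pr h.odd h.inj h.ok h.ok' h.ee h.adm h.adm' I X o o' h.Q w).trans hI0))
      have h2 : (PPs P (T2 w) B B' : ℝ) ≤ ((I0 * E : ℕ) : ℝ) := by exact_mod_cast h1
      have hApos : 0 ≤ P.A P.h := by
        unfold Pr.A
        exact Finset.prod_nonneg (fun _ _ => by positivity)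
      have hpc : 0 ≤ P.pc P.h := by
        rcases P.h with _ | r
        · exact zero_le_one
        · simp only [Pr.pc]; positivity
      gcongr
  rw [zero_add] at hst
  simpa only [one_mul] using hst

/-- **OUT1**, general form -/
theorem out1g {K : Finset κ} {I : Finset γ} {X : γ → ℕ} {o o' : γ → ω}
    {Y Y' : Finset (ι → ℕ)} {f : ι} {Ir : ℕ → ℕ}
    (h : KOk p S S' rk Mk P K I X o o' Y Y' f Ir) {n1 : ℕ} (hn1 : ∀ g ∈ I, X g < n1)
    (B B' : Finset ℕ) (Inj : Finset γ → Prop) (hInj : ∀ H T, T ⊆ H → Inj H → Inj T)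
    {M1 N : ℕ} {εt εs : ℝ} (hεt : 0 ≤ εt)
    (hes : ∀ t < n1, P.M' * P.L0 ∣ t → PrG Mk K (fun w => ∃ T ⊆ I, M1 < T.card ∧ Inj T ∧
        ∀ g ∈ T, LHit h.pr h.inj S S' X o o' Y Y' {t} {0} w g) εt)
    (hst : PrG Mk K (fun w => ∃ H ⊆ tgt h.pr h.inj S S' I X o o' Y Y' (P.M' * P.L0) w,
      N ≤ H.card ∧ ∀ t ∈ H, HitT P w B B' t) εs) :
    PrG Mk K (fun w => ∃ H ⊆ I, M1 * N < H.card ∧ Inj H ∧
        ∀ g ∈ H, KHit h.pr h.inj S S' P X o o' Y Y' B B' w g) (n1 * εt + εs) := by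
  classical
  set M := P.M' * P.L0 with hM
  set Tv := (range n1).filter (fun t => M ∣ t) with hTv
  have hes' : PrG Mk K (fun w => ∃ t ∈ Tv, ∃ T ⊆ I, M1 < T.card ∧ Inj T ∧
        ∀ g ∈ T, LHit h.pr h.inj S S' X o o' Y Y' {t} {0} w g) (n1 * εt) := by
    refine PrG_mono (fun _ _ hw => hw) ?_ (PrG_exists Tv (fun t ht => hes t
      (mem_range.1 (mem_filter.1 ht).1) (mem_filter.1 ht).2))
    rw [sum_const, nsmul_eq_mul]
    have h3 : (Tv.card : ℝ) ≤ n1 := by
      have := card_filter_le (range n1) (fun t => M ∣ t)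
      rw [card_range] at this
      exact_mod_cast this
    exact mul_le_mul_of_nonneg_right h3 hεt
  refine PrG_mono ?_ le_rfl (PrG_or hes' hst)
  rintro r _ ⟨H, hHI, hHc, hinjo, hhit⟩
  choose! y hy y' hy' t ht hHt using hhit
  have hdv : ∀ g ∈ H, M ∣ t g := fun g hg => HitT_dvd h.pok (hHt g hg)
  by_cases hbig : ∃ b ∈ H.image t, M1 < (H.filter (fun g => t g = b)).card
  · left
    obtain ⟨b, hb, hbc⟩ := hbig
    obtain ⟨g0, hg0, rfl⟩ := mem_image.1 hb
    refine ⟨t g0, ?_, H.filter (fun g => t g = t g0), ?_, hbc, ?_, ?_⟩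
    · rw [hTv, mem_filter, mem_range]
      refine ⟨?_, hdv g0 hg0⟩
      have h1 := hn1 g0 (hHI hg0)
      have h2 := ht g0 hg0
      omega
    · exact (filter_subset _ _).trans hHI
    · exact hInj _ _ (filter_subset _ _) hinjo
    · intro g hg
      obtain ⟨hg1, hg2⟩ := mem_filter.1 hg
      refine ⟨y g, hy g hg1, y' g, hy' g hg1, t g0, mem_singleton_self _, 0,
        mem_singleton_self _, ?_⟩
      rw [add_zero, ← hg2]
      exact ht g hg1
  · right
    push Not at hbig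
    refine ⟨H.image t, ?_, ?_, ?_⟩
    · intro b hb
      obtain ⟨g, hg, rfl⟩ := mem_image.1 hb
      exact mem_tgt h.pr h.inj (hHI hg) (hy g hg) (hy' g hg) (ht g hg) (hdv g hg)
    · by_contra hlt
      rw [not_le] at hlt
      have h1 : H.card ≤ (H.image t).card * M1 := by
        rw [card_eq_sum_card_image t H]
        exact sum_le_card_nsmul _ _ _ (fun b hb => hbig b hb)
      have h2 : (H.image t).card * M1 ≤ N * M1 := Nat.mul_le_mul_right _ hlt.le
      have h3 : N * M1 = M1 * N := mul_comm _ _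
      omega
    · intro b hb
      obtain ⟨g, hg, rfl⟩ := mem_image.1 hb
      exact hHt g hg

omit [DecidableEq ι] [Fintype ι] in
open Classical in
/-- all labels: many with constant outer keys, or many with pairwise different keys `o`, or many
with pairwise different keys `o'` -/
theorem out_all2 {K : Finset κ} {I : Finset γ} {o o' : γ → ω} (hit : (κ → ℕ) → γ → Prop)
    {Nd Nc : ℕ} {εd εd' εc : ℝ} (hεc : 0 ≤ εc)
    (hd : PrG Mk K (fun w => ∃ H ⊆ I, Nd < H.card ∧ Set.InjOn o H ∧ ∀ g ∈ H, hit w g) εd)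
    (hd' : PrG Mk K (fun w => ∃ H ⊆ I, Nd < H.card ∧ Set.InjOn o' H ∧ ∀ g ∈ H, hit w g) εd')
    (hc : ∀ q ∈ I.image (fun g => (o g, o' g)), PrG Mk K (fun w => ∃ H ⊆ I, Nc < H.card ∧
      (∀ g ∈ H, o g = q.1 ∧ o' g = q.2) ∧ ∀ g ∈ H, hit w g) εc)
    {np : ℕ} (hnp : I.card ≤ np) :
    PrG Mk K (fun w => ∃ H ⊆ I, Nd * (Nd * Nc) < H.card ∧ ∀ g ∈ H, hit w g)
      (εd + (εd' + np * εc)) := by
  have hc' := PrG_exists (I.image (fun g => (o g, o' g))) hc
  rw [sum_const, nsmul_eq_mul] at hc'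
  refine PrG_mono ?_ ?_ (PrG_or hd (PrG_or hd' hc'))
  · rintro r _ ⟨H, hHI, hHc, hhit⟩
    by_cases hbig : ∃ q ∈ H.image (fun g => (o g, o' g)),
        Nc < (H.filter (fun g => (o g, o' g) = q)).card
    · right
      right
      obtain ⟨q, hq, hqc⟩ := hbig
      refine ⟨q, image_subset_image hHI hq, H.filter (fun g => (o g, o' g) = q),
        (filter_subset _ _).trans hHI, hqc, ?_, ?_⟩
      · intro g hg
        have := (mem_filter.1 hg).2
        exact ⟨congrArg Prod.fst this, congrArg Prod.snd this⟩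
      · intro g hg
        exact hhit g (mem_filter.1 hg).1
    · push Not at hbig
      have h1 : H.card ≤ (H.image (fun g => (o g, o' g))).card * Nc := by
        rw [card_eq_sum_card_image (fun g => (o g, o' g)) H]
        exact sum_le_card_nsmul _ _ _ (fun q hq => hbig q hq)
      have h2 : (H.image (fun g => (o g, o' g))).card ≤ (H.image o).card * (H.image o').card := by
        rw [← card_product]
        refine card_le_card (fun q hq => ?_)
        obtain ⟨g, hg, rfl⟩ := mem_image.1 hq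
        exact mem_product.2 ⟨mem_image_of_mem o hg, mem_image_of_mem o' hg⟩
      rcases Nat.lt_or_ge Nd (H.image o).card with h3 | h3
      · left
        obtain ⟨T1, hT1, hc1, hi1⟩ := exists_inj_subset H o Nd h3
        exact ⟨T1, hT1.trans hHI, by omega, hi1, fun g hg => hhit g (hT1 hg)⟩
      · right
        left
        rcases Nat.lt_or_ge Nd (H.image o').card with h4 | h4
        · obtain ⟨T1, hT1, hc1, hi1⟩ := exists_inj_subset H o' Nd h4
          exact ⟨T1, hT1.trans hHI, by omega, hi1, fun g hg => hhit g (hT1 hg)⟩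
        · exfalso
          have h5 : (H.image o).card * (H.image o').card ≤ Nd * Nd := Nat.mul_le_mul h3 h4
          have h6 : H.card ≤ Nd * Nd * Nc :=
            h1.trans (Nat.mul_le_mul_right _ (h2.trans h5))
          rw [mul_assoc] at h6
          omega
  · have h1 : ((I.image (fun g => (o g, o' g))).card : ℝ) ≤ np := by
      exact_mod_cast card_image_le.trans hnp
    have h2 := mul_le_mul_of_nonneg_right h1 hεc
    linarith

/-- constant outer keys: the static block for labels with pairwise different targets -/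
theorem const_static (hP : P.Ok Mk) (hMk : ∀ k, 0 < Mk k) {K : Finset κ} {J : Finset γ}
    {X : γ → ℕ} (hXJ : Set.InjOn X (J : Set γ))
    (hK : ∀ r < P.h, ∀ i, ∀ y ∈ P.Y r, P.key r i y ∈ K ∧ P.key' r i y ∈ K)
    {Ir : ℕ → ℕ} {I0 E : ℕ} (hTg : (open Classical in TgS P (J.image X) Ir)) (hI : J.card ≤ I0)
    (B B' : Finset ℕ)
    (hE : ∀ t, P.M' * P.L0 ∣ t → ((B ×ˢ B').filter
      (fun q => P.M * P.L P.h * q.1 + P.M' * P.L P.h * q.2 ∈ APt P P.h t)).card ≤ E)
    {ρ Γ : ℝ} (hρ : 0 ≤ ρ)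
    (hA : ∀ r < P.h, 80 * (I0 : ℝ) * P.A r * P.p r 0 * P.p r 2 * Real.sqrt (P.q r 1) ≤
      ρ * P.q r 1)
    (hB : ∀ r < P.h, 1 ≤ r → Ir r * P.A r * P.pc r ≤ ρ)
    (hL : ((I0 * E : ℕ) : ℝ) * P.A P.h * P.pc P.h ≤ ρ)
    (hΓ : ∀ r < P.h, (P.q r 0 * P.q r 1 : ℕ) * (P.W r * P.q r 1) ≤ Γ) (hΓ' : P.W P.h ≤ Γ)
    {m : ℕ} (hm : 1 ≤ m) :
    PrG Mk K (fun w => ∃ H ⊆ J, (m + 1) ^ 2 ^ (4 * P.h) ≤ H.card ∧
      ∀ i ∈ H, HitT P w B B' (X i)) ((3 * P.h + 1) * Γ * ρ ^ (m + 1)) := by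
  classical
  have hK' : ∀ r < P.h, ∀ i, ∀ y ∈ P.Y r, P.key r i y ∈ K \ ∅ ∧ P.key' r i y ∈ K \ ∅ := by
    intro r hr i y hy
    rw [sdiff_empty]
    exact hK r hr i y hy
  have hc : (J.image X).card ≤ I0 := card_image_le.trans hI
  have h := cond_static (ι := γ) (Ir := Ir) (I := I0) hP hMk (K0 := ∅) (empty_subset K)
    (fun _ => J) (fun _ => X) (fun _ _ _ => ⟨rfl, fun _ _ => rfl⟩) hK' (fun _ => True) (ε := 0)
    (PrG_false (fun _ _ hn => hn trivial) le_rfl) (CI := 1) le_rfl ?_ (fun _ _ => hTg)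
    (fun _ _ => hc) B B' hρ hA hB ?_ hΓ hΓ' hm
  · rw [zero_add] at h
    simpa only [one_mul] using h
  · intro w _ t
    refine card_le_one.2 (fun a ha b hb => ?_)
    obtain ⟨a1, a2⟩ := mem_filter.1 ha
    obtain ⟨b1, b2⟩ := mem_filter.1 hb
    exact hXJ (mem_coe.2 a1) (mem_coe.2 b1) (a2.trans b2.symm)
  · intro w _
    refine le_trans ?_ hL
    have h1 : PPs P (J.image X) B B' ≤ I0 * E :=
      (PPs_le (fun t ht => hE t (hTg.dvd t ht))).trans (Nat.mul_le_mul_right _ hc)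
    have h2 : (PPs P (J.image X) B B' : ℝ) ≤ ((I0 * E : ℕ) : ℝ) := by exact_mod_cast h1
    have hApos : 0 ≤ P.A P.h := by
      unfold Pr.A
      exact Finset.prod_nonneg (fun _ _ => by positivity)
    have hpc : 0 ≤ P.pc P.h := by
      rcases P.h with _ | r
      · exact zero_le_one
      · simp only [Pr.pc]; positivity
    gcongr

end Out

end Pool.Agent.Helper1.T5b
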