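import Pool.Agent.Helper22.NEARb.Stmts
import Pool.Agent.Helper44.T5b.Joint
import Pool.Agent.Helper36.T5.Out1

/-!
# T5b (MP_12a1af), lines 6 and 7: pairs without a common front of a static level, no SPLIT,
short distance: definitions and statements

`hz = hb m k 0 l' l` static levels are used (`1 ≤ hz ≤ 3`), the windows below them have
`wW m k l hz` digits with `7 wW ≤ 20 (l - l')`.  The outermost static level `0` is keyed by the
extra families (`OS`); `PO` is the static block of the levels `t, ..., t + h - 1` with given outer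
keys of the level `0` (`t = 0`: constant outer keys; `t = 1`: the levels below the keyed level).
-/

set_option autoImplicit false

namespace Pool.Agent.Helper1.T5b

open Finset
open Pool.Agent.Helper5.ET hiding Key Mk AA Rp keysOf el ext
open Pool.Agent.Helper27.T4
open Pool.Agent.Helper27.T5b hiding FF_pos dvd_cs cs_lt QQ_eq_NN c0_lt Jn_pos
open Pool.Agent.Helper37.T5b
open Pool.Agent.Helper30.T5b hiding pz_prime pz_inj NL_pos
open Pool.Agent.Helper22.HW Pool.Agent.Helper22.SL Pool.Agent.Helper57.T5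
open Pool.Agent.Helper39.T5 Pool.Agent.Helper50.T5
open Pool.Agent.Helper84.T5b Pool.Agent.Helper44.T5 Pool.Agent.Helper44.T5b
open Pool.Agent.Helper22.NEARb Pool.Agent.Helper75.T5 Pool.Agent.Helper1.T5

/-! ## the pairs -/

/-- no SPLIT (one DROP is allowed), no common front of a static level, short distance -/
structure DZ (m k l' l : ℕ) : Prop where
  le : l' ≤ l
  near : Near m k l' l
  same : Same m k l' l
  ble : bL m k l' ≤ bL m k l
  jump : ∀ i, 1 ≤ i → i ≤ rL m k l → ef m k l' i ≠ ef m k l i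
  short : 20 * (l - l') < 7 * wW m k l 0

/-- number of static levels used -/
noncomputable def hz (m k l' l : ℕ) : ℕ := hb m k 0 l' l

/-- Z0: the number of levels -/
def HzS (m k : ℕ) : Prop := ∃ K0 : ℕ, ∀ l' l, K0 ≤ l' → DZ m k l' l →
    l' < l ∧ hz m k l' l ≤ 3 ∧ hz m k l' l ≤ rL m k l ∧ hz m k l' l ≤ rL m k l' ∧
      7 * wW m k l (hz m k l' l) ≤ 20 * (l - l') ∧
      (∀ r < hz m k l' l, 20 * (l - l') < 7 * wW m k l r) ∧
      (60 * (mL m k l - mL m k l') ≤ mL m k l)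

/-! ## the static block with outer keys -/

/-- the levels `t, ..., t + h - 1`, `F0` = size of the window of the targets, `o`, `o'` = outer
keys of the level `0` -/
noncomputable def PO (m k l' l t h F0 : ℕ) (o o' : JF → ℕ) : Pr Key where
  h := h
  p := fun r => pz k (sL m k l - (t + r))
  z := fun r => zf m k (sL m k l - (t + r))
  M := Jn m k (sL m k l) l
  M' := Jn m k (sL m k l) l'
  L0 := LL (QQ m k (sL m k l)) t
  F := fun r => if r = 0 then F0 else FF m k l (t + r)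
  F' := fun r => if r = 0 then F0 else FF m k l' (t + r)
  Y := fun r => Ys m k l (t + r)
  key := fun r => (Ss m k l (t + r) (if t + r = 0 then o else 0)).key
  key' := fun r => (Ss m k l' (t + r) (if t + r = 0 then o' else 0)).key

/-- the block of a pair -/
noncomputable abbrev PZo (m k l' l t h : ℕ) (o o' : JF → ℕ) : Pr Key :=
  PO m k l' l t h (4 * FF m k l t) o o'

/-- the keyed level, `s` = number of split levels, `F` = front number `1` of the state `l` -/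
noncomputable def OS (m k s F l : ℕ) : OSide (pz k s) Key (JF → ℕ) :=
  ⟨F, zf m k s, zf m k s, fun o f y => Key.S l 0 f o (mask (univ.filter (fun g => g < f)) y)⟩

/-- the keyed level of the upper state -/
noncomputable abbrev OSu (m k l : ℕ) : OSide (pz k (sL m k l)) Key (JF → ℕ) :=
  OS m k (sL m k l) (FF m k l 1) l

/-- the keyed level of the lower state -/
noncomputable abbrev OSl (m k l' l : ℕ) : OSide (pz k (sL m k l)) Key (JF → ℕ) :=
  OS m k (sL m k l) (FF m k l' 1) l'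

/-! ## the labels -/

/-- sum of the joint codes -/
noncomputable def sJ (m k l l' : ℕ) (w : Key → ℕ) (q : (JF → ℕ) × (JF → ℕ)) : ℕ :=
  c0 m k l w q.1 + c0 m k l' w q.2

/-- the labels which fit to `n` -/
noncomputable def LbJ (m k l l' : ℕ) (w : Key → ℕ) (n : ℕ) : Finset ((JF → ℕ) × (JF → ℕ)) :=
  (XJ m k l ×ˢ XJ m k l').filter (fun q => sJ m k l l' w q ≤ n ∧
    Jn m k (sL m k l) l' ∣ n - sJ m k l l' w q)

/-- the labels of the hits of `n` -/
noncomputable def LbH (m k l l' : ℕ) (w : Key → ℕ) (n : ℕ) : Finset ((JF → ℕ) × (JF → ℕ)) :=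
  (Hts m k l l' w n).image (fun q => (q.1.1.1, q.2.1.1))

/-- sets of labels of hits with pairwise different sums of the joint codes -/
def ZHitC (m k : ℕ) (l l' : ℕ) (w : Key → ℕ) (c : ℕ) : Prop :=
  ∃ n, ∃ H ⊆ LbH m k l l' w n, Set.InjOn (sJ m k l l' w) (H : Set ((JF → ℕ) × (JF → ℕ))) ∧
    c = H.card

/-- the common target of the lines 6 and 7 -/
def ZStatS : Prop := Blk DZ ZHitC

/-- Z1: number of labels; labels in a class modulo a front of the lower state -/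
def LabS (m k : ℕ) : Prop := ∃ K0 : ℕ, ∀ l' l, K0 ≤ l' → DZ m k l' l → ∀ (w : Key → ℕ) (n : ℕ),
    (LbJ m k l l' w n).card ≤ CJ k (sL m k l) * IJ m k l l' ∧
    ∀ r, 1 ≤ r → r ≤ rL m k l' → ∀ c,
      ((LbJ m k l l' w n).filter (fun q => (n - sJ m k l l' w q) % FF m k l' r =
        c % FF m k l' r)).card ≤ CJ k (sL m k l) * LJ m k l l' (ef m k l' r)

/-! ## the keys -/

/-- joint keys -/
def isJ : Key → Prop
  | Key.J _ _ _ => True
  | _ => False

open Classical in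
/-- the joint keys of a pair -/
noncomputable def keysJ (m k l l' : ℕ) : Finset Key := (keysOf m k l ∪ keysOf m k l').filter isJ

/-- Z2: dependence on the keys, `s = hz` -/
def KeyS (m k : ℕ) : Prop := ∃ K0 : ℕ, ∀ l' l, K0 ≤ l' → DZ m k l' l →
    (∀ w w' : Key → ℕ, (∀ q ∈ keysJ m k l l', w q = w' q) →
      ∀ q ∈ XJ m k l ×ˢ XJ m k l', sJ m k l l' w q = sJ m k l l' w' q) ∧
    (∀ w w' : Key → ℕ, ∀ s, 1 ≤ s → s ≤ rL m k l → s ≤ rL m k l' →
      (∀ q ∈ deep m k l l' s, w q = w' q) →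
      Bw m k l s w = Bw m k l s w' ∧ Bw m k l' s w = Bw m k l' s w') ∧
    ∀ K, keysOf m k l ⊆ K → keysOf m k l' ⊆ K →
      (∀ x ∈ XJ m k l, ∀ y ∈ Ys m k l 0, ∀ f, ∀ s, 1 ≤ s →
        (OSu m k l).key (okey m k l 0 x) f y ∈ K \ (keysJ m k l l' ∪ deep m k l l' s)) ∧
      (∀ x ∈ XJ m k l', ∀ y ∈ Ys m k l 0, ∀ f, ∀ s, 1 ≤ s →
        (OSl m k l' l).key (okey m k l' 0 x) f y ∈ K \ (keysJ m k l l' ∪ deep m k l l' s)) ∧
      (∀ h, 1 + h ≤ rL m k l → 1 + h ≤ rL m k l' → ∀ r < h, ∀ i, ∀ y ∈ (PZo m k l' l 1 h 0 0).Y r,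
        (PZo m k l' l 1 h 0 0).key r i y ∈ K \ (keysJ m k l l' ∪ deep m k l l' (1 + h)) ∧
        (PZo m k l' l 1 h 0 0).key' r i y ∈ K \ (keysJ m k l l' ∪ deep m k l l' (1 + h)))

/-! ## the blocks are in order -/

/-- Z3: the blocks are in order -/
def OkS (m k : ℕ) : Prop := ∃ K0 : ℕ, ∀ l' l, K0 ≤ l' → DZ m k l' l →
    (∀ t h, t ≤ 1 → t + h = hz m k l' l → ∀ o o', (PZo m k l' l t h o o').Ok (Mk m k)) ∧
    (OSu m k l).Ok rk3 (Mk m k) ∧ (OSl m k l' l).Ok rk3 (Mk m k) ∧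
    4 * FF m k l 0 ≤ FF m k l 1 * QQ m k (sL m k l) 0

/-! ## the hits -/

/-- Z4: the hits.  A hit with the joint vectors `x`, `x'` gives two vectors of the keyed level and
two elements of the windows below it; the windows and the tail; constant outer keys. -/
def HitS (m k : ℕ) : Prop := ∃ K0 : ℕ, ∀ l' l, K0 ≤ l' → DZ m k l' l → ∀ w : Key → ℕ,
    (∀ n, ∀ q ∈ LbH m k l l' w n, q ∈ LbJ m k l l' w n ∧
      ∃ y ∈ Ys m k l 0, ∃ y' ∈ Ys m k l 0, ∃ u ∈ Zw m k l 1 w, ∃ u' ∈ Zw m k l' 1 w,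
        (OSu m k l).cd (pz_prime k _) (pz_inj k _) w (okey m k l 0 q.1) y +
          (OSl m k l' l).cd (pz_prime k _) (pz_inj k _) w (okey m k l' 0 q.2) y' +
            (u + u') = n - sJ m k l l' w q) ∧
    (∀ h, 1 + h = hz m k l' l → ∀ u ∈ Zw m k l 1 w, ∀ u' ∈ Zw m k l' 1 w,
      HitT (PZo m k l' l 1 h 0 0) w (Bw m k l (1 + h) w) (Bw m k l' (1 + h) w) (u + u')) ∧
    (∀ h, 1 + h = hz m k l' l → ∀ (o o' : JF → ℕ), ∀ y ∈ Ys m k l 0, ∀ y' ∈ Ys m k l 0,
      ∀ (B B' : Finset ℕ) (t X : ℕ),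
      (OSu m k l).cd (pz_prime k _) (pz_inj k _) w o y +
          (OSl m k l' l).cd (pz_prime k _) (pz_inj k _) w o' y' + t = X →
      HitT (PZo m k l' l 1 h 0 0) w B B' t → HitT (PZo m k l' l 0 (1 + h) o o') w B B' X)

/-! ## the numbers -/

/-- the numbers of the block of the levels `t, ..., t + h - 1`; `C` = factor of the number of
labels -/
structure NumZ (m k l' l t h C : ℕ) : Prop where
  hA : ∀ r < h, 80 * ((C * (CJ k (sL m k l) * IJ m k l l') : ℕ) : ℝ) *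
    (PZo m k l' l t h 0 0).A r * (PZo m k l' l t h 0 0).p r 0 * (PZo m k l' l t h 0 0).p r 2 *
      Real.sqrt ((PZo m k l' l t h 0 0).q r 1) ≤
        Real.exp (-(wW m k l (t + h) : ℝ)) * (PZo m k l' l t h 0 0).q r 1
  hB : ∀ r < h, 1 ≤ r →
    ((C * (CJ k (sL m k l) * LJ m k l l' (ef m k l' (t + r))) : ℕ) : ℝ) *
      (PZo m k l' l t h 0 0).A r * (PZo m k l' l t h 0 0).pc r ≤
        Real.exp (-(wW m k l (t + h) : ℝ))
  hG : ∀ r < h, (((PZo m k l' l t h 0 0).q r 0 * (PZo m k l' l t h 0 0).q r 1 : ℕ) : ℝ) *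
    ((PZo m k l' l t h 0 0).W r * (PZo m k l' l t h 0 0).q r 1) ≤ Real.exp (42 * wW m k l 0)
  hG' : (PZo m k l' l t h 0 0).W h ≤ Real.exp (42 * wW m k l 0)

/-- Z5: the numbers, for the full block and for the tail -/
def NumZS (m k : ℕ) : Prop := ∃ K0 : ℕ, ∀ l' l, K0 ≤ l' → DZ m k l' l →
    (∀ t h, t ≤ 1 → t + h = hz m k l' l → NumZ m k l' l t h (CS k (sL m k l) 0)) ∧
    (((CJ k (sL m k l) * IJ m k l l' : ℕ) : ℝ) * ((Ys m k l 0).image (fun y => y 0)).card ≤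
      Real.exp (-(wW m k l (hz m k l' l) : ℝ)) *
        ((pz k (sL m k l) 0 ^ zf m k (sL m k l) 0 : ℕ) : ℝ)) ∧
    ((Ys m k l 0).card * (Ys m k l 0).card ≤ QQ m k (sL m k l) 0) ∧
    ((QQ m k (sL m k l) 0 : ℕ) : ℝ) ≤ Real.exp (14 * wW m k l 0)

/-- Z6: number of pairs of windows for one target, times the price -/
def WinZS (m k : ℕ) : Prop := ∃ K0 : ℕ, ∀ l' l, K0 ≤ l' → DZ m k l' l →
    ∀ w : Key → ℕ, RegE m k l (hz m k l' l) w → RegE m k l' (hz m k l' l) w →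
    ∀ t h, t ≤ 1 → 1 ≤ h → t + h = hz m k l' l → ∃ E : ℕ,
      (∀ x, (PZo m k l' l t h 0 0).M' * (PZo m k l' l t h 0 0).L0 ∣ x →
        ((Bw m k l (hz m k l' l) w ×ˢ Bw m k l' (hz m k l' l) w).filter
          (fun q => (PZo m k l' l t h 0 0).M * (PZo m k l' l t h 0 0).L h * q.1 +
            (PZo m k l' l t h 0 0).M' * (PZo m k l' l t h 0 0).L h * q.2 ∈
              APt (PZo m k l' l t h 0 0) h x)).card ≤ E) ∧
      (((CS k (sL m k l) 0 * (CJ k (sL m k l) * IJ m k l l')) * E : ℕ) : ℝ) *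
        (PZo m k l' l t h 0 0).A h * (PZo m k l' l t h 0 0).pc h ≤
          Real.exp (-((wW m k l (hz m k l' l) : ℝ) / 200))

/-! ## the end -/

/-- Z7: the number of the sums and the exponents -/
def EndS : Prop := ∃ E m0 : ℕ, ∀ m, m0 ≤ m → ∀ C : ℕ, ∃ (C1 c0 : ℝ) (K0 : ℕ), 0 ≤ C1 ∧ 0 < c0 ∧
    ∀ l' l, K0 ≤ l' → DZ m (m ^ 2) l' l →
      (l : ℝ) ^ c0 ≤ wW m (m ^ 2) l (hz m (m ^ 2) l' l) ∧
      ∃ N : ℕ, 1 ≤ N ∧
        (C : ℝ) * l + wW m (m ^ 2) l (hz m (m ^ 2) l' l) ≤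
          N * (wW m (m ^ 2) l (hz m (m ^ 2) l' l) / 200) ∧
        (((N + 1) ^ 6000 * C : ℕ) : ℝ) ≤ C1 * (l : ℝ) ^ ((E : ℝ) / (m : ℝ))

/-- Z8: the sizes: `17 NL l`, the size of the outermost level -/
def SizeZS (m k : ℕ) : Prop := ∃ K0 C : ℕ, ∀ l, K0 ≤ l →
    ((34 * NL m k l + 1 : ℕ) : ℝ) ≤ Real.exp (C * l) ∧ wW m k l 0 ≤ l ∧
    ∀ l', l' ≤ l → DZ m k l' l →
      ((CJ k (sL m k l) * IJ m k l l' : ℕ) : ℝ) ≤ Real.exp (C * l)

end Pool.Agent.Helper1.T5b
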