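import Pool.Agent.Helper1.T5b.ZDefs
import Pool.Agent.Helper1.T5b.Out1g

/-!
# T5b (MP_12a1af), lines 6 and 7: the labels with their outer keys and targets, second statements
-/

set_option autoImplicit false

namespace Pool.Agent.Helper1.T5b

open Finset
open Pool.Agent.Helper5.ET hiding Key Mk AA Rp keysOf el ext
open Pool.Agent.Helper27.T4
open Pool.Agent.Helper27.T5b hiding FF_pos dvd_cs cs_lt QQ_eq_NN c0_lt Jn_pos
open Pool.Agent.Helper37.T5b
open Pool.Agent.Helper30.T5b hiding pz_prime pz_inj NL_pos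
open Pool.Agent.Helper22.HW Pool.Agent.Helper22.SL Pool.Agent.Helper57.T5
open Pool.Agent.Helper39.T5 Pool.Agent.Helper50.T5
open Pool.Agent.Helper84.T5b Pool.Agent.Helper44.T5 Pool.Agent.Helper44.T5b
open Pool.Agent.Helper22.NEARb Pool.Agent.Helper75.T5 Pool.Agent.Helper1.T5
open Pool.Agent.Helper36.T5

/-- a label: the two outer keys and the target -/
abbrev LT : Type := (JF → ℕ) × ((JF → ℕ) × ℕ)

/-- the labels of `n` -/
noncomputable def LbT (m k l l' : ℕ) (w : Key → ℕ) (n : ℕ) : Finset LT :=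
  (LbJ m k l l' w n).image (fun q => (okey m k l 0 q.1, (okey m k l' 0 q.2,
    n - sJ m k l l' w q)))

/-- class numbers of the block of the levels from `t` on -/
noncomputable def IrT (m k l' l t r : ℕ) : ℕ := CS k (sL m k l) 0 * (CJ k (sL m k l) *
  (if r = 0 then IJ m k l l' else LJ m k l l' (ef m k l' (t + r))))

/-- A1: the keyed level above the tail is in order -/
def KokS (m k : ℕ) : Prop := ∃ K0 : ℕ, ∀ l' l, K0 ≤ l' → DZ m k l' l →
    ∀ K, keysOf m k l ⊆ K → keysOf m k l' ⊆ K → ∀ (w : Key → ℕ) (n h : ℕ),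
    1 + h = hz m k l' l →
    KOk (pz k (sL m k l)) (OSu m k l) (OSl m k l' l) rk3 (Mk m k) (PZo m k l' l 1 h 0 0)
      (K \ (keysJ m k l l' ∪ deep m k l l' (1 + h))) (LbT m k l l' w n) (fun g => g.2.2)
      (fun g => g.1) (fun g => g.2.1) (Ys m k l 0) (Ys m k l 0) 0 (IrT m k l' l 1)

/-- A4: constant outer keys, windows `v` and joint keys `w` fixed -/
def ConstS (m k : ℕ) : Prop := ∃ K0 : ℕ, ∀ l' l, K0 ≤ l' → DZ m k l' l →
    ∀ K, keysOf m k l ⊆ K → keysOf m k l' ⊆ K → ∀ (w : Key → ℕ) (n h : ℕ),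
    1 + h = hz m k l' l → ∀ v : Key → ℕ, RegE m k l (1 + h) v → RegE m k l' (1 + h) v →
    ∀ (g0 : LT), g0 ∈ LbT m k l l' w n → ∀ N : ℕ, 1 ≤ N →
    Pool.Agent.Helper22.SL.PrG (Mk m k) (K \ (keysJ m k l l' ∪ deep m k l l' (1 + h)))
      (fun w' => ∃ H ⊆ LbT m k l l' w n, (N + 1) ^ 2 ^ (4 * (1 + h)) ≤ H.card ∧
        (∀ g ∈ H, g.1 = g0.1 ∧ g.2.1 = g0.2.1) ∧
        ∀ g ∈ H, HitT (PZo m k l' l 0 (1 + h) g0.1 g0.2.1) w' (Bw m k l (1 + h) v)
          (Bw m k l' (1 + h) v) g.2.2)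
      ((3 * ((1 + h : ℕ) : ℝ) + 1) * Real.exp (42 * wW m k l 0) *
        Real.exp (-((wW m k l (1 + h) : ℝ) / 200)) ^ (N + 1))

/-- A0: number of candidates of the keyed level -/
def CandS (m k : ℕ) : Prop := ∃ K0 : ℕ, ∀ l' l, K0 ≤ l' → DZ m k l' l → ∀ (J h : ℕ) (ρ : ℝ),
    0 ≤ ρ → (J : ℝ) * (PZo m k l' l 0 (1 + h) 0 0).A 1 * (PZo m k l' l 0 (1 + h) 0 0).pc 1 ≤ ρ →
    (((J * ((Ys m k l 0).card * (Ys m k l 0).card)) *
      (FF m k l' 1 * NN (pz k (sL m k l)) (zf m k (sL m k l)) /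
        (FF m k l 1 * pz k (sL m k l) 0 ^ zf m k (sL m k l) 0) + 1) : ℕ) : ℝ) ≤
      ρ * ((NN (pz k (sL m k l)) (zf m k (sL m k l)) : ℝ) *
        (MM (pz k (sL m k l)) (zf m k (sL m k l)) (univ.erase 0) : ℝ))

end Pool.Agent.Helper1.T5b
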