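import Pool.Agent.Helper1.T5b.ZDefs3
import Pool.Agent.Helper1.T5b.EstSides

/-!
# T5b (MP_12a1af), lines 6 and 7: windows and joint keys fixed

`fix_bound`: with the windows and the joint keys fixed, the number of labels which are hit through
the keyed level and the static levels below it.
-/

set_option autoImplicit false

namespace Pool.Agent.Helper1.T5b

open Finset
open Pool.Agent.Helper5.ET hiding Key Mk AA Rp keysOf el ext
open Pool.Agent.Helper27.T4
open Pool.Agent.Helper27.T5b hiding FF_pos dvd_cs cs_lt QQ_eq_NN c0_lt Jn_pos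
open Pool.Agent.Helper37.T5b
open Pool.Agent.Helper30.T5b hiding pz_prime pz_inj NL_pos
open Pool.Agent.Helper22.HW Pool.Agent.Helper22.SL Pool.Agent.Helper57.T5
open Pool.Agent.Helper39.T5 Pool.Agent.Helper50.T5
open Pool.Agent.Helper84.T5b Pool.Agent.Helper44.T5 Pool.Agent.Helper44.T5b
open Pool.Agent.Helper22.NEARb Pool.Agent.Helper75.T5 Pool.Agent.Helper1.T5
open Pool.Agent.Helper36.T5

variable {m k : ℕ}

theorem PZo_L (m k l' l t h : ℕ) (o o' : JF → ℕ) (r : ℕ) :
    (PZo m k l' l t h o o').L r = LL (QQ m k (sL m k l)) (t + r) := by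
  induction r with
  | zero =>
    have : (PZo m k l' l t h o o').L 0 = LL (QQ m k (sL m k l)) t * 1 := rfl
    rw [this, mul_one, add_zero]
  | succ r ih =>
    have e1 : (PZo m k l' l t h o o').L (r + 1) =
        (PZo m k l' l t h o o').L r * (PZo m k l' l t h o o').Q r := by
      unfold Pr.L
      rw [prod_range_succ, mul_assoc]
    rw [e1, ih, ← add_assoc, LL_succ]
    rfl

theorem CS_pos (k s t : ℕ) : 0 < CS k s t := by
  unfold CS
  refine prod_pos (fun i _ => ?_)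
  have := (pz_prime k (s - t) i).two_le
  omega

/-- everything fixed: the facts used -/
structure Fix (m k l' l : ℕ) (K : Finset Key) (w : Key → ℕ) (n h : ℕ) (v : Key → ℕ) (C : ℕ) :
    Prop where
  kok : KOk (pz k (sL m k l)) (OSu m k l) (OSl m k l' l) rk3 (Mk m k) (PZo m k l' l 1 h 0 0)
      K (LbT m k l l' w n) (fun g => g.2.2)
      (fun g => g.1) (fun g => g.2.1) (Ys m k l 0) (Ys m k l 0) 0 (IrT m k l' l 1)
  okF : (PZo m k l' l 0 (1 + h) 0 0).Ok (Mk m k)
  cardI : (LbT m k l l' w n).card ≤ CJ k (sL m k l) * IJ m k l l'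
  cls1 : ∀ c, ((LbT m k l l' w n).filter (fun g => g.2.2 % FF m k l' 1 = c % FF m k l' 1)).card ≤
    CJ k (sL m k l) * LJ m k l l' (ef m k l' 1)
  numF : NumZ m k l' l 0 (1 + h) (CS k (sL m k l) 0)
  numT : NumZ m k l' l 1 h (CS k (sL m k l) 0)
  qb : ((CJ k (sL m k l) * IJ m k l l' : ℕ) : ℝ) * ((Ys m k l 0).image (fun y => y 0)).card ≤
      Real.exp (-(wW m k l (1 + h) : ℝ)) * ((pz k (sL m k l) 0 ^ zf m k (sL m k l) 0 : ℕ) : ℝ)
  y2 : (Ys m k l 0).card * (Ys m k l 0).card ≤ QQ m k (sL m k l) 0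
  qu : ((QQ m k (sL m k l) 0 : ℕ) : ℝ) ≤ Real.exp (14 * wW m k l 0)
  win : ∀ t h', t ≤ 1 → 1 ≤ h' → t + h' = 1 + h → ∃ E : ℕ,
      (∀ x, (PZo m k l' l t h' 0 0).M' * (PZo m k l' l t h' 0 0).L0 ∣ x →
        ((Bw m k l (1 + h) v ×ˢ Bw m k l' (1 + h) v).filter
          (fun q => (PZo m k l' l t h' 0 0).M * (PZo m k l' l t h' 0 0).L h' * q.1 +
            (PZo m k l' l t h' 0 0).M' * (PZo m k l' l t h' 0 0).L h' * q.2 ∈
              APt (PZo m k l' l t h' 0 0) h' x)).card ≤ E) ∧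
      (((CS k (sL m k l) 0 * (CJ k (sL m k l) * IJ m k l l')) * E : ℕ) : ℝ) *
        (PZo m k l' l t h' 0 0).A h' * (PZo m k l' l t h' 0 0).pc h' ≤
          Real.exp (-((wW m k l (1 + h) : ℝ) / 200))
  cand : ∀ (J : ℕ) (ρ : ℝ), 0 ≤ ρ →
    (J : ℝ) * (PZo m k l' l 0 (1 + h) 0 0).A 1 * (PZo m k l' l 0 (1 + h) 0 0).pc 1 ≤ ρ →
    (((J * ((Ys m k l 0).card * (Ys m k l 0).card)) *
      (FF m k l' 1 * NN (pz k (sL m k l)) (zf m k (sL m k l)) /
        (FF m k l 1 * pz k (sL m k l) 0 ^ zf m k (sL m k l) 0) + 1) : ℕ) : ℝ) ≤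
      ρ * ((NN (pz k (sL m k l)) (zf m k (sL m k l)) : ℝ) *
        (MM (pz k (sL m k l)) (zf m k (sL m k l)) (univ.erase 0) : ℝ))
  h3 : h ≤ 2
  wl : wW m k l 0 ≤ l
  l1 : 1 ≤ l
  sz : ((CJ k (sL m k l) * IJ m k l l' : ℕ) : ℝ) ≤ Real.exp (C * l)
  sn : ((n + 1 : ℕ) : ℝ) ≤ Real.exp (C * l)

namespace Fix

variable {l' l : ℕ} {K : Finset Key} {w : Key → ℕ} {n h : ℕ} {v : Key → ℕ} {C : ℕ}

/-- the probability of one more hit -/
noncomputable def rho (m k l h : ℕ) : ℝ := Real.exp (-((wW m k l (1 + h) : ℝ) / 200))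

theorem rho_pos (m k l h : ℕ) : 0 < rho m k l h := Real.exp_pos _

theorem rho_le_one (m k l h : ℕ) : rho m k l h ≤ 1 := by
  unfold rho
  rw [Real.exp_le_one_iff]
  have : (0 : ℝ) ≤ (wW m k l (1 + h) : ℝ) := Nat.cast_nonneg _
  linarith

theorem exp_le_rho (m k l h : ℕ) : Real.exp (-(wW m k l (1 + h) : ℝ)) ≤ rho m k l h := by
  unfold rho
  apply Real.exp_le_exp.2
  have : (0 : ℝ) ≤ (wW m k l (1 + h) : ℝ) := Nat.cast_nonneg _
  linarith

/-- the prefactor of estimate (5) -/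
theorem pref_le (F : Fix m k l' l K w n h v C) :
    rho m k l h * ((NN (pz k (sL m k l)) (zf m k (sL m k l)) : ℝ) *
      (MM (pz k (sL m k l)) (zf m k (sL m k l)) (univ.erase 0) : ℝ)) +
      (((LbT m k l l' w n).card * (Ys m k l 0).card : ℕ) : ℝ) *
        (((LbT m k l l' w n).card * (Ys m k l 0).card : ℕ) : ℝ) ≤
      Real.exp (((2 * C + 30 : ℕ) : ℝ) * l) := by
  have hl1 : (1 : ℝ) ≤ l := by exact_mod_cast F.l1
  have hwl : (wW m k l 0 : ℝ) ≤ l := by exact_mod_cast F.wl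
  have hQ : ((NN (pz k (sL m k l)) (zf m k (sL m k l)) : ℕ) : ℝ) ≤ Real.exp (14 * l) := by
    refine F.qu.trans (Real.exp_le_exp.2 ?_)
    linarith
  have hMM : (MM (pz k (sL m k l)) (zf m k (sL m k l)) (univ.erase 0)) ≤
      NN (pz k (sL m k l)) (zf m k (sL m k l)) := by
    unfold MM NN
    refine Finset.prod_le_prod_of_subset_of_one_le' (Finset.subset_univ _) (fun i _ _ => ?_)
    exact Nat.one_le_pow _ _ (pz_prime k _ i).pos
  have hMM' : ((MM (pz k (sL m k l)) (zf m k (sL m k l)) (univ.erase 0) : ℕ) : ℝ) ≤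
      Real.exp (14 * l) := le_trans (by exact_mod_cast hMM) hQ
  have hI : ((LbT m k l l' w n).card : ℝ) ≤ Real.exp (C * l) :=
    le_trans (by exact_mod_cast F.cardI) F.sz
  have hY : ((Ys m k l 0).card : ℝ) ≤ Real.exp (14 * l) := by
    have h1 : (Ys m k l 0).card ≤ QQ m k (sL m k l) 0 :=
      (Nat.le_mul_self _).trans F.y2
    exact le_trans (by exact_mod_cast h1) hQ
  have hIY : (((LbT m k l l' w n).card * (Ys m k l 0).card : ℕ) : ℝ) ≤
      Real.exp (C * l + 14 * l) := by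
    push_cast
    rw [Real.exp_add]
    exact mul_le_mul hI hY (Nat.cast_nonneg _) (Real.exp_pos _).le
  have h1 : rho m k l h * ((NN (pz k (sL m k l)) (zf m k (sL m k l)) : ℝ) *
      (MM (pz k (sL m k l)) (zf m k (sL m k l)) (univ.erase 0) : ℝ)) ≤
      Real.exp (14 * l + 14 * l) := by
    rw [Real.exp_add]
    have e0 : (0 : ℝ) ≤ Real.exp (14 * l) := (Real.exp_pos _).le
    have e4 : (0 : ℝ) ≤ ((MM (pz k (sL m k l)) (zf m k (sL m k l)) (univ.erase 0) : ℕ) : ℝ) :=
      Nat.cast_nonneg _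
    have e1 := mul_le_mul hQ hMM' e4 e0
    have e2 : (0 : ℝ) ≤ (NN (pz k (sL m k l)) (zf m k (sL m k l)) : ℝ) *
      (MM (pz k (sL m k l)) (zf m k (sL m k l)) (univ.erase 0) : ℝ) :=
      mul_nonneg (Nat.cast_nonneg _) (Nat.cast_nonneg _)
    have e3 := mul_le_mul_of_nonneg_right (rho_le_one m k l h) e2
    rw [one_mul] at e3
    exact e3.trans e1
  have h2 : (((LbT m k l l' w n).card * (Ys m k l 0).card : ℕ) : ℝ) *
        (((LbT m k l l' w n).card * (Ys m k l 0).card : ℕ) : ℝ) ≤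
      Real.exp ((C * l + 14 * l) + (C * l + 14 * l)) := by
    rw [Real.exp_add (C * (l : ℝ) + 14 * l) (C * (l : ℝ) + 14 * l)]
    exact mul_le_mul hIY hIY (by positivity) (by positivity)
  have hC : (0 : ℝ) ≤ (C : ℝ) * l := by positivity
  have h3 : Real.exp (14 * (l : ℝ) + 14 * l) ≤ Real.exp (2 * (C * l) + 28 * l) :=
    Real.exp_le_exp.2 (by linarith)
  have h4 : Real.exp ((C * (l : ℝ) + 14 * l) + (C * l + 14 * l)) =
      Real.exp (2 * (C * l) + 28 * l) := by
    congr 1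
    ring
  rw [h4] at h2
  have h5 : (2 : ℝ) ≤ Real.exp (2 * l) := by
    have := Real.add_one_le_exp (2 * (l : ℝ))
    linarith
  have h6 : Real.exp (((2 * C + 30 : ℕ) : ℝ) * l) =
      Real.exp (2 * (C * l) + 28 * l) * Real.exp (2 * l) := by
    rw [← Real.exp_add]
    congr 1
    push_cast
    ring
  rw [h6]
  have h7 := mul_le_mul_of_nonneg_left h5 (Real.exp_pos (2 * (C * (l : ℝ)) + 28 * l)).le
  linarith

/-- the numbers with `rho` -/
theorem qb' (F : Fix m k l' l K w n h v C) :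
    ((LbT m k l l' w n).card : ℝ) * ((Ys m k l 0).image (fun y => y 0)).card ≤
      rho m k l h * ((pz k (sL m k l) 0 ^ zf m k (sL m k l) 0 : ℕ) : ℝ) := by
  refine le_trans (mul_le_mul_of_nonneg_right ?_ (Nat.cast_nonneg _)) (F.qb.trans ?_)
  · exact_mod_cast F.cardI
  · exact mul_le_mul_of_nonneg_right (exp_le_rho m k l h) (Nat.cast_nonneg _)

/-- **one side**: a hereditary property for which estimate (5) holds -/
theorem side_gen (F : Fix m k l' l K w n h v C) (Inj : Finset LT → Prop)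
    (hInj : ∀ H T, T ⊆ H → Inj H → Inj T) {N : ℕ} (hN : 1 ≤ N)
    (hest : ∀ (U U' : Finset ℕ),
      (∀ u ∈ U, pz k (sL m k l) 0 ^ zf m k (sL m k l) 0 ∣ u) →
      (∀ u ∈ U', pz k (sL m k l) 0 ^ zf m k (sL m k l) 0 ∣ u) →
      ∀ G : Finset (LT × (ℕ × ℕ)),
      (∀ g ∈ LbT m k l l' w n, ∀ u ∈ U, ∀ u' ∈ U', ∀ c c', FF m k l 1 ∣ c →
        c < FF m k l 1 * NN (pz k (sL m k l)) (zf m k (sL m k l)) → FF m k l' 1 ∣ c' →
        c' < FF m k l' 1 * NN (pz k (sL m k l)) (zf m k (sL m k l)) →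
        c + c' + (u + u') = g.2.2 → (g, (u, u')) ∈ G) →
      ∀ J : ℕ, G.card ≤ J →
      (((J * ((Ys m k l 0).card * (Ys m k l 0).card)) *
      (FF m k l' 1 * NN (pz k (sL m k l)) (zf m k (sL m k l)) /
        (FF m k l 1 * pz k (sL m k l) 0 ^ zf m k (sL m k l) 0) + 1) : ℕ) : ℝ) ≤
        rho m k l h * ((NN (pz k (sL m k l)) (zf m k (sL m k l)) : ℝ) *
        (MM (pz k (sL m k l)) (zf m k (sL m k l)) (univ.erase 0) : ℝ)) →
      PrG (Mk m k) K (fun w' => ∃ T ⊆ LbT m k l l' w n, N * N < T.card ∧ Inj T ∧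
        ∀ g ∈ T, LHit (pz_prime k (sL m k l)) (pz_inj k (sL m k l)) (OSu m k l) (OSl m k l' l)
          (fun g : LT => g.2.2) (fun g => g.1) (fun g => g.2.1) (Ys m k l 0) (Ys m k l 0)
          U U' w' g)
        (Real.exp (((2 * C + 30 : ℕ) : ℝ) * l) * rho m k l h ^ N)) :
    PrG (Mk m k) K (fun w' => ∃ H ⊆ LbT m k l l' w n,
        N * N * (N + 1) ^ 2 ^ (4 * h) < H.card ∧ Inj H ∧
        ∀ g ∈ H, KHz m k l' l h (Bw m k l (1 + h) v) (Bw m k l' (1 + h) v) w' g)
      (Real.exp (((3 * C + 80 : ℕ) : ℝ) * l) * rho m k l h ^ N) := by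
  classical
  have hl1 : (1 : ℝ) ≤ l := by exact_mod_cast F.l1
  have hwl : (wW m k l 0 : ℝ) ≤ l := by exact_mod_cast F.wl
  have hC : (0 : ℝ) ≤ (C : ℝ) * l := by positivity
  have hr0 := rho_pos m k l h
  have hr1 := rho_le_one m k l h
  have hrN : (0 : ℝ) ≤ rho m k l h ^ N := pow_nonneg hr0.le _
  set I := LbT m k l l' w n with hI
  set B := Bw m k l (1 + h) v with hB
  set B' := Bw m k l' (1 + h) v with hB'
  have hQL : ∀ o o', (PZo m k l' l 1 h o o').L0 = NN (pz k (sL m k l)) (zf m k (sL m k l)) := by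
    intro o o'
    have : (PZo m k l' l 1 h o o').L0 = LL (QQ m k (sL m k l)) 1 := rfl
    rw [this, LL_succ, LL_zero, one_mul]
    rfl
  have hq0 : pz k (sL m k l) 0 ^ zf m k (sL m k l) 0 ∣
      NN (pz k (sL m k l)) (zf m k (sL m k l)) := pow_dvd_NN _ _ 0
  have hFF : FF m k l' 1 ∣ FF m k l 1 := by
    have := F.okF.F'F 1 (by show 1 ≤ 1 + h; omega)
    exact this
  rcases Nat.eq_zero_or_pos h with h0 | hpos
  · -- one static level
    subst h0
    obtain ⟨E, hE, hEA⟩ := F.win 0 1 (by omega) le_rfl rfl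
    set P := PZo m k l' l 1 0 0 0 with hP
    set P0 := PZo m k l' l 0 1 0 0 with hP0
    have eL : P.L P.h = P0.L 1 := by
      have e1 : P.h = 0 := rfl
      rw [e1, hP, PZo_L, hP0, PZo_L]
    set U := B.image (fun b => P.M * P.L P.h * b) with hU
    set U' := B'.image (fun b => P.M' * P.L P.h * b) with hU'
    have hLQ : P.L P.h = NN (pz k (sL m k l)) (zf m k (sL m k l)) := by
      have e1 : P.h = 0 := rfl
      have e2 : P.L 0 = P.L0 := by
        unfold Pr.L
        simp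
      rw [e1, e2, hP, hQL]
    set G : Finset (LT × (ℕ × ℕ)) := (I ×ˢ (U ×ˢ U')).filter (fun q => ∃ c c',
      FF m k l 1 ∣ c ∧ c < FF m k l 1 * NN (pz k (sL m k l)) (zf m k (sL m k l)) ∧
      FF m k l' 1 ∣ c' ∧ c' < FF m k l' 1 * NN (pz k (sL m k l)) (zf m k (sL m k l)) ∧
      c + c' + (q.2.1 + q.2.2) = q.1.2.2) with hG
    have hdvd : ∀ g ∈ I, P0.M' * P0.L0 ∣ g.2.2 := by
      intro g hg
      rw [hI, LbT, mem_image] at hg
      obtain ⟨q, hq, rfl⟩ := hg
      have h1 := (mem_filter.1 hq).2.2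
      have e1 : P0.L0 = 1 := LL_zero (QQ m k (sL m k l))
      rw [e1, mul_one]
      exact h1
    have hGc : G.card ≤ I.card * E := by
      have h1 : G.card = ∑ g ∈ I, (G.filter (fun q => q.1 = g)).card :=
        card_eq_sum_card_fiberwise (fun q hq =>
          mem_coe.2 (mem_product.1 (mem_filter.1 (mem_coe.1 hq)).1).1)
      rw [h1]
      refine sum_le_card_nsmul _ _ _ (fun g hg => ?_)
      refine le_trans ?_ (hE g.2.2 (hdvd g hg))
      refine le_trans (card_le_card (t := ((B ×ˢ B').filter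
          (fun q => P0.M * P0.L 1 * q.1 + P0.M' * P0.L 1 * q.2 ∈ APt P0 1 g.2.2)).image
          (fun q => ((g, (P.M * P.L P.h * q.1, P.M' * P.L P.h * q.2)) : LT × (ℕ × ℕ)))) ?_)
        card_image_le
      intro q hq
      obtain ⟨hq1, hq2⟩ := mem_filter.1 hq
      obtain ⟨hq3, c, c', c1, c2, c3, c4, c5⟩ := mem_filter.1 hq1
      obtain ⟨hq4, hq5⟩ := mem_product.1 hq3
      obtain ⟨hq6, hq7⟩ := mem_product.1 hq5
      obtain ⟨b, hb, hb1⟩ := mem_image.1 hq6
      obtain ⟨b', hb', hb2⟩ := mem_image.1 hq7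
      have hgq : q.1.2.2 = g.2.2 := by rw [hq2]
      rw [hgq] at c5
      rw [mem_image]
      refine ⟨(b, b'), ?_, ?_⟩
      · rw [mem_filter]
        refine ⟨mem_product.2 ⟨hb, hb'⟩, ?_⟩
        have eM : P0.M = P.M := rfl
        have eM' : P0.M' = P.M' := rfl
        have e3 : P0.M * P0.L 1 * b + P0.M' * P0.L 1 * b' = q.2.1 + q.2.2 := by
          rw [← hb1, ← hb2, eL, eM, eM']
        show P0.M * P0.L 1 * b + P0.M' * P0.L 1 * b' ∈ APt P0 1 g.2.2
        rw [e3, APt, mem_filter, mem_range]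
        have hM'M : P.M' ∣ P.M := F.kok.pok.M'M
        have d1 : P.M' * P.L P.h ∣ q.2.1 := by
          rw [← hb1]
          exact (Nat.mul_dvd_mul_right hM'M _).trans (dvd_mul_right _ _)
        have d2 : P.M' * P.L P.h ∣ q.2.2 := by
          rw [← hb2]
          exact dvd_mul_right _ _
        refine ⟨by omega, ?_, ?_, ?_⟩
        · rw [← eL, eM']
          exact dvd_add d1 d2
        · have e4 : P0.F' 1 = FF m k l' 1 := rfl
          rw [e4]
          have d3 : FF m k l' 1 ∣ c + c' := dvd_add (hFF.trans c1) c3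
          have e5 : (c + c') % FF m k l' 1 = 0 := Nat.mod_eq_zero_of_dvd d3
          have e9 : g.2.2 % FF m k l' 1 = (q.2.1 + q.2.2) % FF m k l' 1 := by
            rw [← c5, Nat.add_mod (c + c'), e5, zero_add, Nat.mod_mod]
          exact e9.symm
        · have e4 : P0.F 1 = FF m k l 1 := rfl
          rw [e4, ← eL, hLQ]
          have e6 : FF m k l' 1 * NN (pz k (sL m k l)) (zf m k (sL m k l)) ≤
              FF m k l 1 * NN (pz k (sL m k l)) (zf m k (sL m k l)) :=
            Nat.mul_le_mul_right _ (Nat.le_of_dvd (FF_pos _ _ _ _) hFF)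
          omega
      · rw [← hq2]
        refine Prod.ext rfl (Prod.ext hb1 hb2)
    have hJ : (((I.card * E : ℕ) : ℝ)) * P0.A 1 * P0.pc 1 ≤ rho m k l 0 := by
      refine le_trans ?_ hEA
      have hA0 : 0 ≤ P0.A 1 := by
        unfold Pr.A
        exact Finset.prod_nonneg (fun _ _ => by positivity)
      have hp0 : 0 ≤ P0.pc 1 := by
        simp only [Pr.pc]
        positivity
      have h1 : ((I.card * E : ℕ) : ℝ) ≤
          (((CS k (sL m k l) 0 * (CJ k (sL m k l) * IJ m k l l')) * E : ℕ) : ℝ) := by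
        exact_mod_cast Nat.mul_le_mul_right _ (F.cardI.trans
          (Nat.le_mul_of_pos_left _ (CS_pos k _ 0)))
      gcongr
    have h1 := hest U U' (fun u hu => by
        obtain ⟨b, hb, rfl⟩ := mem_image.1 hu
        rw [hLQ, mul_assoc]
        exact Dvd.dvd.mul_left (Dvd.dvd.mul_right hq0 _) _) (fun u hu => by
        obtain ⟨b, hb, rfl⟩ := mem_image.1 hu
        rw [hLQ, mul_assoc]
        exact Dvd.dvd.mul_left (Dvd.dvd.mul_right hq0 _) _) G (fun g hg u hu u' hu' c c' c1 c2 c3 c4 c5 =>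
        mem_filter.2 ⟨mem_product.2 ⟨hg, mem_product.2 ⟨hu, hu'⟩⟩, c, c', c1, c2, c3, c4, c5⟩)
      (I.card * E) hGc (F.cand (I.card * E) _ hr0.le hJ)
    refine PrG_mono ?_ ?_ h1
    · rintro r _ ⟨H, hHI, hHc, hHi, hh⟩
      refine ⟨H, hHI, ?_, hHi, fun g hg => ?_⟩
      · have e7 : 1 ≤ (N + 1) ^ 2 ^ (4 * 0) := Nat.one_le_pow _ _ (by omega)
        have e8 : N * N ≤ N * N * (N + 1) ^ 2 ^ (4 * 0) := Nat.le_mul_of_pos_right _ e7
        omega
      · obtain ⟨y, hy, y', hy', t, ht, hHt⟩ := hh g hg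
        obtain ⟨d, b, b', -, hb, hb', he⟩ := hHt
        have he' : P.M * P.L P.h * b + P.M' * P.L P.h * b' = t := he
        exact ⟨y, hy, y', hy', _, mem_image_of_mem _ hb, _, mem_image_of_mem _ hb', by
          rw [he']; exact ht⟩
    · refine mul_le_mul_of_nonneg_right (Real.exp_le_exp.2 ?_) hrN
      push_cast
      nlinarith
  · -- at least two static levels
    obtain ⟨E, hE, hEA⟩ := F.win 1 h le_rfl hpos rfl
    set P := PZo m k l' l 1 h 0 0 with hP
    have hPh : P.h = h := rfl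
    have hnumA : ((CJ k (sL m k l) * LJ m k l l' (ef m k l' 1) : ℕ) : ℝ) *
        (PZo m k l' l 0 (1 + h) 0 0).A 1 * (PZo m k l' l 0 (1 + h) 0 0).pc 1 ≤ rho m k l h := by
      refine le_trans ?_ ((F.numF.hB 1 (by omega) le_rfl).trans ?_)
      · have hA0 : 0 ≤ (PZo m k l' l 0 (1 + h) 0 0).A 1 := by
          unfold Pr.A
          exact Finset.prod_nonneg (fun _ _ => by positivity)
        have hp0 : 0 ≤ (PZo m k l' l 0 (1 + h) 0 0).pc 1 := by
          simp only [Pr.pc]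
          positivity
        have h1 : ((CJ k (sL m k l) * LJ m k l l' (ef m k l' 1) : ℕ) : ℝ) ≤
            ((CS k (sL m k l) 0 * (CJ k (sL m k l) * LJ m k l l' (ef m k l' (0 + 1))) : ℕ) : ℝ) := by
          exact_mod_cast Nat.le_mul_of_pos_left _ (CS_pos k _ 0)
        gcongr
      · rw [zero_add]
        exact exp_le_rho m k l h
    have hcand := F.cand _ _ hr0.le hnumA
    have hst := tail_static (I0 := CS k (sL m k l) 0 * (CJ k (sL m k l) * IJ m k l l'))
      (Mk_pos m k) F.kok B B' (E := E)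
      (Nat.mul_le_mul le_rfl F.cardI) (fun t ht => hE t ht) hr0.le
      (fun r hr => (F.numT.hA r hr).trans
        (mul_le_mul_of_nonneg_right (exp_le_rho m k l h) (Nat.cast_nonneg _)))
      (fun r hr hr1 => by
        refine le_trans ?_ ((F.numT.hB r hr hr1).trans (exp_le_rho m k l h))
        unfold IrT
        rw [if_neg (by omega)])
      (by exact_mod_cast hEA) (fun r hr => F.numT.hG r hr) F.numT.hG' hN
    have h1 := out1g F.kok (n1 := n + 1) (fun g hg => by
        rw [LbT, mem_image] at hg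
        obtain ⟨q, -, rfl⟩ := hg
        exact Nat.lt_succ_of_le (Nat.sub_le _ _)) B B' Inj hInj (M1 := N * N)
      (εt := Real.exp (((2 * C + 30 : ℕ) : ℝ) * l) * rho m k l h ^ N) (by positivity)
      (fun t ht htd => hest {t} {0} (fun u hu => by
          rw [mem_singleton] at hu
          rw [hu]
          rw [hQL] at htd
          exact hq0.trans ((dvd_mul_left _ _).trans htd)) (fun u hu => by
          rw [mem_singleton] at hu
          rw [hu]
          exact dvd_zero _)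
        ((I.filter (fun g => g.2.2 % FF m k l' 1 = t % FF m k l' 1)) ×ˢ {(t, 0)})
        (fun g hg u hu u' hu' c c' c1 c2 c3 c4 c5 => by
          rw [mem_singleton] at hu hu'
          subst hu hu'
          refine mem_product.2 ⟨mem_filter.2 ⟨hg, ?_⟩, mem_singleton_self _⟩
          have d3 : FF m k l' 1 ∣ c + c' := dvd_add (hFF.trans c1) c3
          have e5 : (c + c') % FF m k l' 1 = 0 := Nat.mod_eq_zero_of_dvd d3
          rw [← c5, Nat.add_mod, e5, zero_add, Nat.mod_mod, add_zero])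
        (CJ k (sL m k l) * LJ m k l l' (ef m k l' 1)) (by
          rw [card_product, card_singleton, mul_one]
          exact F.cls1 t) hcand) hst
    refine PrG_mono (fun _ _ hw => hw) ?_ h1
    have hΓ : Real.exp (42 * wW m k l 0) ≤ Real.exp (42 * l) := Real.exp_le_exp.2 (by linarith)
    have e1 : ((n + 1 : ℕ) : ℝ) * (Real.exp (((2 * C + 30 : ℕ) : ℝ) * l) * rho m k l h ^ N) ≤
        Real.exp (C * l) * Real.exp (((2 * C + 30 : ℕ) : ℝ) * l) * rho m k l h ^ N := by
      rw [mul_assoc]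
      exact mul_le_mul_of_nonneg_right F.sn (by positivity)
    have e2 : (3 * ((P.h : ℕ) : ℝ) + 1) * Real.exp (42 * wW m k l 0) * rho m k l h ^ (N + 1) ≤
        7 * Real.exp (42 * l) * rho m k l h ^ N := by
      have e3 : (3 * ((P.h : ℕ) : ℝ) + 1) ≤ 7 := by
        have : ((P.h : ℕ) : ℝ) ≤ 2 := by
          rw [hPh]
          exact_mod_cast F.h3
        linarith
      have e4 : rho m k l h ^ (N + 1) ≤ rho m k l h ^ N :=
        pow_le_pow_of_le_one hr0.le hr1 (by omega)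
      gcongr
    have e5 : (8 : ℝ) ≤ Real.exp (8 * l) := by
      have := Real.add_one_le_exp (8 * (l : ℝ))
      linarith
    have e6 : Real.exp (C * l) * Real.exp (((2 * C + 30 : ℕ) : ℝ) * l) ≤
        Real.exp (((3 * C + 72 : ℕ) : ℝ) * l) := by
      rw [← Real.exp_add]
      apply Real.exp_le_exp.2
      push_cast
      nlinarith
    have e7 : Real.exp (42 * (l : ℝ)) ≤ Real.exp (((3 * C + 72 : ℕ) : ℝ) * l) := by
      apply Real.exp_le_exp.2
      push_cast
      nlinarith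
    have e8 : Real.exp (((3 * C + 80 : ℕ) : ℝ) * l) =
        Real.exp (((3 * C + 72 : ℕ) : ℝ) * l) * Real.exp (8 * l) := by
      rw [← Real.exp_add]
      congr 1
      push_cast
      ring
    rw [e8]
    set Z := Real.exp (((3 * C + 72 : ℕ) : ℝ) * l) with hZ
    have hZ0 : 0 < Z := Real.exp_pos _
    calc _ ≤ Real.exp (C * l) * Real.exp (((2 * C + 30 : ℕ) : ℝ) * l) * rho m k l h ^ N +
          7 * Real.exp (42 * l) * rho m k l h ^ N := add_le_add e1 e2
      _ ≤ Z * rho m k l h ^ N + 7 * Z * rho m k l h ^ N := by gcongr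
      _ = Z * 8 * rho m k l h ^ N := by ring
      _ ≤ Z * Real.exp (8 * l) * rho m k l h ^ N := by gcongr

end Fix

end Pool.Agent.Helper1.T5b
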