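import Pool.Agent.Helper1.T5b.ZDefs
import Pool.Agent.Helper63.T5b.ZNumX
import Pool.Agent.Helper63.T5b.PnOk

/-!
# T5b (MP_12a1af), lines 6 and 7, Z3: the blocks are in order
-/

set_option autoImplicit false

namespace Pool.Agent.Helper1.T5b

open Finset
open Pool.Agent.Helper27.T4
open Pool.Agent.Helper37.T5b
open Pool.Agent.Helper30.T5b hiding pz_prime pz_inj NL_pos
open Pool.Agent.Helper22.HW Pool.Agent.Helper22.SL Pool.Agent.Helper57.T5
open Pool.Agent.Helper84.T5b Pool.Agent.Helper44.T5 Pool.Agent.Helper44.T5b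
open Pool.Agent.Helper22.NEARb Pool.Agent.Helper75.T5
open Pool.Agent.Helper5.ET (bb era mask)
open Pool.Agent.Helper63.T5b
open Pool.Agent.Helper39.T5b (prB)
open Pool.Agent.Helper27.T5b (rL_bounds)

variable {m k : ℕ}

/-- the side of the lower state, number of split levels as a parameter, any outer key -/
theorem side_ok' {m k l' u s : ℕ} (hs : sL m k l' = s) (hu : u ≤ s) (hk : u ≤ k + 1)
    (o : JF → ℕ) :
    (⟨FF m k l' (u + 1) * LL (QQ m k s) u, zf m k (s - u), zf m k (s - u),
      (Ss m k l' u o).key⟩ : Side (pz k (s - u)) Key).Ok rk3 (Mk m k) := by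
  subst hs
  exact Ss_ok hu hk o

theorem PZo_S {l' l t h : ℕ} (o o' : JF → ℕ) (r : ℕ) : (PZo m k l' l t h o o').S r =
    Ss m k l (t + r) (if t + r = 0 then o else 0) := by
  have e : (PZo m k l' l t h o o').S r = ⟨FF m k l (t + (r + 1)) * (PZo m k l' l t h o o').L r,
    zf m k (sL m k l - (t + r)), zf m k (sL m k l - (t + r)),
    (Ss m k l (t + r) (if t + r = 0 then o else 0)).key⟩ := rfl
  have eL : (PZo m k l' l t h o o').L r = LL (QQ m k (sL m k l)) (t + r) :=
    Pool.Agent.Helper39.T5b.prB_L (l' := l') (h := h) r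
  rw [e, eL]
  rfl

/-- **the block is in order** -/
theorem PZo_ok (hm : 0 < m) {l' l : ℕ} (hD : DZ m k l' l) (hlt : l' < l) (hH : HZ m k l' l)
    {c : ℝ} (hL : LateN m k c l') {t h : ℕ} (hth : t + h ≤ hz m k l' l) (o o' : JF → ℕ) :
    (PZo m k l' l t h o o').Ok (Mk m k) := by
  have hX := numXZ hm hD hH hL hth
  have hs : sL m k l' = sL m k l := hD.same
  have hrb := rL_bounds hm k l
  have hrl : ∀ r ≤ h, t + r ≤ rL m k l := fun r hr => by
    have := hH.hr
    omega
  have eL : ∀ r, (PZo m k l' l t h o o').L r = LL (QQ m k (sL m k l)) (t + r) := fun r =>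
    Pool.Agent.Helper39.T5b.prB_L (l' := l') (h := h) r
  have eF : ∀ i, FF m k l' i = Jn m k (sL m k l) (ef m k l' i) := by
    intro i
    show Jn m k (sL m k l') (ef m k l' i) = _
    rw [hs]
  have emono : ∀ i, ef m k l' i ≤ ef m k l i := by
    intro i
    unfold ef
    rw [hs]
    exact ez_mono m _ hD.le
  have dF : ∀ i, Jn m k (sL m k l) l ∣ FF m k l i := fun i => Jn_dvd _ _ _ (lt_ef hm k l i).le
  have dF' : ∀ i, Jn m k (sL m k l) l' ∣ FF m k l' i := fun i => by
    rw [eF]
    exact Jn_dvd _ _ _ (lt_ef hm k l' i).le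
  have dFF : ∀ i, FF m k l' i ∣ FF m k l i := fun i => by
    rw [eF]
    exact Jn_dvd _ _ _ (emono i)
  have dA : ∀ i, FF m k l (i + 1) ∣ FF m k l i := fun i => Jn_dvd _ _ _ (ef_anti hm k l (by omega))
  have dA' : ∀ i, FF m k l' (i + 1) ∣ FF m k l' i := fun i => by
    rw [eF, eF]
    exact Jn_dvd _ _ _ (ef_anti hm k l' (by omega))
  refine
    { prime := fun r i => pz_prime k _ i
      odd := fun r i => pz_ne_two k _ i
      inj := fun r => pz_inj k _
      sok := ?_
      sok' := ?_
      adm := fun r => Pool.Agent.Helper73.T5.sadm_of_adm (pz_prime k _) (pz_ne_two k _)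
        (Ys_adm m k l (t + r))
      kd := ?_
      kd' := ?_
      kdd' := ?_
      com := ?_
      posF := ?_
      posM' := Jn_pos _ _ _ _
      posL := LL_QQ_pos _ _ _ _
      M'M := Jn_dvd _ _ _ hD.le
      MF := ?_
      M'F' := ?_
      F'F := ?_
      FF := ?_
      F'F' := ?_
      copL := ?_
      size := fun r hr => PZo_size hX hr
      zF := fun r hr => PZo_zF hX hr
      mid := fun r hr => PZo_mid hX hr }
  · intro r hr
    have h1 := hrl r (le_of_lt hr)
    rw [PZo_S]
    exact Ss_ok (by omega) (by omega) _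
  · intro r hr
    have h1 := hrl r (le_of_lt hr)
    have e : (PZo m k l' l t h o o').S' r = ⟨FF m k l' (t + r + 1) *
      (PZo m k l' l t h o o').L r, zf m k (sL m k l - (t + r)), zf m k (sL m k l - (t + r)),
      (Ss m k l' (t + r) (if t + r = 0 then o' else 0)).key⟩ := rfl
    rw [e, eL]
    exact side_ok' hs (by omega) (by omega) _
  · intro r r' hrr i y i' y' hk
    have h1 : Key.S l (t + r) i (if t + r = 0 then o else 0)
        (mask (univ.filter (fun g => g < i)) y) =
      Key.S l (t + r') i' (if t + r' = 0 then o else 0)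
        (mask (univ.filter (fun g => g < i')) y') := hk
    simp only [Key.S.injEq, true_and] at h1
    omega
  · intro r r' hrr i y i' y' hk
    have h1 : Key.S l' (t + r) i (if t + r = 0 then o' else 0)
        (mask (univ.filter (fun g => g < i)) y) =
      Key.S l' (t + r') i' (if t + r' = 0 then o' else 0)
        (mask (univ.filter (fun g => g < i')) y') := hk
    simp only [Key.S.injEq, true_and] at h1
    omega
  · intro r r' i y i' y' hk
    have h1 : Key.S l (t + r) i (if t + r = 0 then o else 0)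
        (mask (univ.filter (fun g => g < i)) y) =
      Key.S l' (t + r') i' (if t + r' = 0 then o' else 0)
        (mask (univ.filter (fun g => g < i')) y') := hk
    simp only [Key.S.injEq] at h1
    omega
  · show (if 0 = 0 then 4 * FF m k l t else FF m k l (t + 0)) =
      (if 0 = 0 then 4 * FF m k l t else FF m k l' (t + 0))
    rw [if_pos rfl, if_pos rfl]
  · show 0 < (if 0 = 0 then 4 * FF m k l t else FF m k l (t + 0))
    rw [if_pos rfl]
    have := FF_pos m k l t
    omega
  · intro r _
    show Jn m k (sL m k l) l ∣ (if r = 0 then 4 * FF m k l t else FF m k l (t + r))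
    split_ifs
    · exact Dvd.dvd.mul_left (dF t) _
    · exact dF _
  · intro r _
    show Jn m k (sL m k l) l' ∣ (if r = 0 then 4 * FF m k l t else FF m k l' (t + r))
    split_ifs
    · exact Dvd.dvd.mul_left ((dF' t).trans (dFF t)) _
    · exact dF' _
  · intro r _
    show (if r = 0 then 4 * FF m k l t else FF m k l' (t + r)) ∣
      (if r = 0 then 4 * FF m k l t else FF m k l (t + r))
    split_ifs
    · exact dvd_rfl
    · exact dFF _
  · intro r _
    show (if r + 1 = 0 then 4 * FF m k l t else FF m k l (t + (r + 1))) ∣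
      (if r = 0 then 4 * FF m k l t else FF m k l (t + r))
    rw [if_neg (by omega)]
    split_ifs with h0
    · subst h0
      exact Dvd.dvd.mul_left (dA t) _
    · exact dA (t + r)
  · intro r _
    show (if r + 1 = 0 then 4 * FF m k l t else FF m k l' (t + (r + 1))) ∣
      (if r = 0 then 4 * FF m k l t else FF m k l' (t + r))
    rw [if_neg (by omega)]
    split_ifs with h0
    · subst h0
      exact Dvd.dvd.mul_left ((dA' t).trans (dFF t)) _
    · exact dA' (t + r)
  · intro r hr
    have h1 := hrl r hr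
    rw [eL]
    show (LL (QQ m k (sL m k l)) (t + r)).Coprime (4 * FF m k l t)
    refine Nat.Coprime.mul_right ?_ (coprime_LL_Jn (by omega) (by omega) _)
    have h2 : (LL (QQ m k (sL m k l)) (t + r)).Coprime 2 := by
      unfold LL
      refine Nat.Coprime.prod_left (fun i _ => ?_)
      rw [QQ_eq_NN]
      unfold NN
      refine Nat.Coprime.prod_left (fun j _ => Nat.Coprime.pow_left _ ?_)
      exact (Nat.coprime_primes (pz_prime k _ j) Nat.prime_two).2 (pz_ne_two k _ j)
    exact Nat.Coprime.pow_right 2 h2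

/-- the keyed level of one state is in order -/
theorem OS_ok {l s : ℕ} (hs : sL m k l = s) :
    (OS m k s (FF m k l 1) l).Ok rk3 (Mk m k) where
  ok o := by
    have h1 := side_ok' (m := m) (k := k) (l' := l) (u := 0) hs (Nat.zero_le _) (Nat.zero_le _) o
    have e : (⟨FF m k l (0 + 1) * LL (QQ m k s) 0, zf m k (s - 0), zf m k (s - 0),
      (Ss m k l 0 o).key⟩ : Side (pz k (s - 0)) Key) = (OS m k s (FF m k l 1) l).side o := by
      rw [LL_zero, mul_one]
      rfl
    rw [← e]
    exact h1
  outer o o' i i' y y' h := by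
    have h1 : Key.S l 0 i o (mask (univ.filter (fun g => g < i)) y) =
      Key.S l 0 i' o' (mask (univ.filter (fun g => g < i')) y') := h
    simp only [Key.S.injEq, true_and] at h1
    exact h1.2.1

/-- **Z3** -/
theorem okS (hm : 2 ≤ m) (h0 : HzS m k) : OkS m k := by
  have hm0 : 0 < m := by omega
  obtain ⟨K0, h0⟩ := h0
  obtain ⟨K1, h1⟩ := exists_lateN hm k 0
  refine ⟨max K0 K1, fun l' l hl hD => ?_⟩
  obtain ⟨z1, z2, z3, z4, z5, z6, z7⟩ := h0 l' l ((le_max_left _ _).trans hl) hD
  have hL := h1 l' ((le_max_right _ _).trans hl)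
  have hH : HZ m k l' l := ⟨z2, z3, z6⟩
  have hz1 : 1 ≤ hz m k l' l := hb_pos m k 0 l' l
  refine ⟨fun t h _ hth o o' => PZo_ok hm0 hD z1 hH hL hth.le o o', OS_ok rfl, OS_ok hD.same, ?_⟩
  have hX := numXZ (t := 0) (h := hz m k l' l) hm0 hD hH hL (by omega)
  have h8 := hX.size8 (r := 0) (by show 0 < hz m k l' l; omega)
  have eL : ∀ r, (prB m k l' l 0 (hz m k l' l)).L r = LL (QQ m k (sL m k l)) (0 + r) := fun r =>
    Pool.Agent.Helper39.T5b.prB_L r
  rw [eL, eL, LL_zero, LL_succ, LL_zero] at h8
  have e1 : (prB m k l' l 0 (hz m k l' l)).F 0 = FF m k l 0 := rfl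
  have e2 : (prB m k l' l 0 (hz m k l' l)).F (0 + 1) = FF m k l 1 := rfl
  rw [e1, e2, mul_one, one_mul] at h8
  omega

end Pool.Agent.Helper1.T5b
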